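import Pool.Agent.helper15.Hexagon.Defs

/-!
Regions bounded by lines in the four directions of the sides of a regular octagon, with
offsets in `ℤ[√2]`.
-/

set_option autoImplicit false

namespace Pool.Agent.helper56.Oct

open Set

/-! ### numbers of the form `a + b √2` -/

/-- `⟨a, b⟩` stands for `a + b √2` -/
structure Q2 where
  a : ℤ
  b : ℤ
deriving DecidableEq

namespace Q2

noncomputable def val (q : Q2) : ℝ := q.a + q.b * √2

instance : Neg Q2 := ⟨fun q => ⟨-q.a, -q.b⟩⟩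
instance : Add Q2 := ⟨fun p q => ⟨p.a + q.a, p.b + q.b⟩⟩

theorem val_neg (q : Q2) : (-q).val = -q.val := by
  show ((-q.a : ℤ) : ℝ) + ((-q.b : ℤ) : ℝ) * √2 = -((q.a : ℝ) + q.b * √2)
  push_cast; ring

theorem val_add (p q : Q2) : (p + q).val = p.val + q.val := by
  show ((p.a + q.a : ℤ) : ℝ) + ((p.b + q.b : ℤ) : ℝ) * √2 =
    ((p.a : ℝ) + p.b * √2) + ((q.a : ℝ) + q.b * √2)
  push_cast; ring

/-- a test for `0 ≤ a + b √2` -/
def nonneg (q : Q2) : Bool :=
  (decide (0 ≤ q.a) && decide (0 ≤ q.b)) ||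
    ((decide (0 ≤ q.a) && decide (2 * q.b ^ 2 ≤ q.a ^ 2)) ||
      (decide (0 ≤ q.b) && decide (q.a ^ 2 ≤ 2 * q.b ^ 2)))

theorem s2_pos : (0 : ℝ) < √2 := Real.sqrt_pos.2 (by norm_num)
theorem s2_sq : √2 * √2 = (2 : ℝ) := Real.mul_self_sqrt (by norm_num)

theorem val_nonneg {q : Q2} (h : q.nonneg = true) : 0 ≤ q.val := by
  have hs := s2_pos
  have hq := s2_sq
  simp only [nonneg, Bool.or_eq_true, Bool.and_eq_true, decide_eq_true_eq] at h
  unfold val
  rcases h with ⟨h1, h2⟩ | ⟨h1, h2⟩ | ⟨h1, h2⟩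
  · have h1' : (0 : ℝ) ≤ q.a := by exact_mod_cast h1
    have h2' : (0 : ℝ) ≤ q.b := by exact_mod_cast h2
    positivity
  · have h1' : (0 : ℝ) ≤ q.a := by exact_mod_cast h1
    have h2' : 2 * (q.b : ℝ) ^ 2 ≤ (q.a : ℝ) ^ 2 := by exact_mod_cast h2
    have h3 : |(q.b : ℝ) * √2| ≤ |(q.a : ℝ)| := by
      apply sq_le_sq.1
      calc ((q.b : ℝ) * √2) ^ 2 = (q.b : ℝ) ^ 2 * (√2 * √2) := by ring
        _ = 2 * (q.b : ℝ) ^ 2 := by rw [hq]; ring
        _ ≤ _ := h2'
    rw [abs_of_nonneg h1'] at h3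
    have := (abs_le.1 h3).1
    linarith
  · have h1' : (0 : ℝ) ≤ q.b := by exact_mod_cast h1
    have h2' : (q.a : ℝ) ^ 2 ≤ 2 * (q.b : ℝ) ^ 2 := by exact_mod_cast h2
    have h3 : |(q.a : ℝ)| ≤ |(q.b : ℝ) * √2| := by
      apply sq_le_sq.1
      calc (q.a : ℝ) ^ 2 ≤ 2 * (q.b : ℝ) ^ 2 := h2'
        _ = (q.b : ℝ) ^ 2 * (√2 * √2) := by rw [hq]; ring
        _ = _ := by ring
    rw [abs_of_nonneg (by positivity : 0 ≤ (q.b : ℝ) * √2)] at h3
    have := (abs_le.1 h3).1
    linarith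

/-- a test for `p ≤ q` -/
def le (p q : Q2) : Bool := (q + -p).nonneg

theorem val_le {p q : Q2} (h : p.le q = true) : p.val ≤ q.val := by
  have := val_nonneg h
  rw [val_add, val_neg] at this
  linarith

end Q2

/-! ### the four functionals -/

/-- `U j z` is the scalar product of `z` with the unit vector of argument `j π / 4` -/
noncomputable def U : Fin 4 → ℂ →L[ℝ] ℝ :=
  ![Complex.reCLM, (√2 / 2 : ℝ) • (Complex.reCLM + Complex.imCLM), Complex.imCLM,
    (√2 / 2 : ℝ) • (Complex.imCLM - Complex.reCLM)]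

theorem U0 (z : ℂ) : U 0 z = z.re := rfl
theorem U1 (z : ℂ) : U 1 z = √2 / 2 * (z.re + z.im) := by simp [U]; ring
theorem U2 (z : ℂ) : U 2 z = z.im := rfl
theorem U3 (z : ℂ) : U 3 z = √2 / 2 * (z.im - z.re) := by simp [U]

/-- a region bounded by lines of the four directions -/
structure Box where
  lo : Fin 4 → Q2
  hi : Fin 4 → Q2

theorem Box.ext_of {B C : Box} (h1 : ∀ j, B.lo j = C.lo j) (h2 : ∀ j, B.hi j = C.hi j) :
    B = C := by
  cases B; cases C
  simp only [Box.mk.injEq]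
  exact ⟨funext h1, funext h2⟩

def Box.set (B : Box) : Set ℂ := {z | ∀ j, (B.lo j).val ≤ U j z ∧ U j z ≤ (B.hi j).val}

theorem Box.set_eq (B : Box) : B.set = ⋂ j, U j ⁻¹' Icc (B.lo j).val (B.hi j).val := by
  ext z; simp only [Box.set, mem_ofPred_eq, mem_iInter, mem_preimage, mem_Icc]

theorem Box.convex (B : Box) : Convex ℝ B.set := by
  rw [B.set_eq]
  exact convex_iInter fun j => (convex_Icc _ _).linear_preimage (U j).toLinearMap

theorem Box.isClosed (B : Box) : IsClosed B.set := by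
  rw [B.set_eq]
  exact isClosed_iInter fun j => isClosed_Icc.preimage (U j).continuous

theorem Box.isCompact (B : Box) : IsCompact B.set := by
  have h1 : IsCompact (Icc (B.lo 0).val (B.hi 0).val ×ℂ Icc (B.lo 2).val (B.hi 2).val) :=
    isCompact_Icc.reProdIm isCompact_Icc
  refine h1.of_isClosed_subset B.isClosed ?_
  intro z hz
  exact ⟨hz 0, hz 2⟩

/-- points of the open region are interior -/
theorem Box.mem_interior (B : Box) {z : ℂ}
    (h : ∀ j, (B.lo j).val < U j z ∧ U j z < (B.hi j).val) : z ∈ interior B.set := by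
  rw [_root_.mem_interior]
  refine ⟨⋂ j, U j ⁻¹' Ioo (B.lo j).val (B.hi j).val, ?_, ?_, ?_⟩
  · intro w hw j
    have := mem_iInter.1 hw j
    exact ⟨this.1.le, this.2.le⟩
  · exact isOpen_iInter_of_finite fun j => isOpen_Ioo.preimage (U j).continuous
  · exact mem_iInter.2 h

theorem Box.closure_interior (B : Box) (h : (interior B.set).Nonempty) :
    closure (interior B.set) = B.set := by
  rw [B.convex.closure_interior_eq_closure_of_nonempty_interior h, B.isClosed.closure_eq]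

/-- membership in terms of the cartesian coordinates -/
theorem Box.mem_iff (B : Box) (z : ℂ) : z ∈ B.set ↔
    (((B.lo 0).a + (B.lo 0).b * √2 ≤ z.re ∧ z.re ≤ (B.hi 0).a + (B.hi 0).b * √2) ∧
      (2 * (B.lo 1).b + (B.lo 1).a * √2 ≤ z.re + z.im ∧
        z.re + z.im ≤ 2 * (B.hi 1).b + (B.hi 1).a * √2)) ∧
    (((B.lo 2).a + (B.lo 2).b * √2 ≤ z.im ∧ z.im ≤ (B.hi 2).a + (B.hi 2).b * √2) ∧
      (2 * (B.lo 3).b + (B.lo 3).a * √2 ≤ z.im - z.re ∧
        z.im - z.re ≤ 2 * (B.hi 3).b + (B.hi 3).a * √2)) := by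
  have hs := Q2.s2_pos
  have hq := Q2.s2_sq
  have key : ∀ (q : Q2) (t : ℝ), (q.val ≤ √2 / 2 * t ↔ 2 * (q.b : ℝ) + q.a * √2 ≤ t) ∧
      (√2 / 2 * t ≤ q.val ↔ t ≤ 2 * (q.b : ℝ) + q.a * √2) := by
    intro q t
    have e : q.val = √2 / 2 * (2 * (q.b : ℝ) + q.a * √2) := by
      unfold Q2.val
      have : √2 / 2 * (2 * (q.b : ℝ) + q.a * √2) = q.b * √2 + q.a * (√2 * √2) / 2 := by ring
      rw [this, hq]; ring
    rw [e]
    exact ⟨mul_le_mul_iff_right₀ (by positivity), mul_le_mul_iff_right₀ (by positivity)⟩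
  constructor
  · intro h
    refine ⟨⟨h 0, ?_⟩, ⟨h 2, ?_⟩⟩
    · have := h 1
      rw [U1] at this
      exact ⟨(key _ _).1.1 this.1, (key _ _).2.1 this.2⟩
    · have := h 3
      rw [U3] at this
      exact ⟨(key _ _).1.1 this.1, (key _ _).2.1 this.2⟩
  · rintro ⟨⟨h0, h1⟩, ⟨h2, h3⟩⟩ j
    fin_cases j
    · exact h0
    · show (B.lo 1).val ≤ U 1 z ∧ U 1 z ≤ (B.hi 1).val
      rw [U1]
      exact ⟨(key _ _).1.2 h1.1, (key _ _).2.2 h1.2⟩
    · exact h2
    · show (B.lo 3).val ≤ U 3 z ∧ U 3 z ≤ (B.hi 3).val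
      rw [U3]
      exact ⟨(key _ _).1.2 h3.1, (key _ _).2.2 h3.2⟩

/-! ### separated regions -/

theorem exists_pos_of_interior {P : Set ℂ} {z : ℂ} (hz : z ∈ interior P) (d : ℂ) :
    ∃ δ : ℝ, 0 < δ ∧ z + δ • d ∈ P := by
  have hc : Continuous fun δ : ℝ => z + δ • d := by fun_prop
  have h0 : (fun δ : ℝ => z + δ • d) ⁻¹' (interior P) ∈ nhds (0 : ℝ) := by
    apply (isOpen_interior.preimage hc).mem_nhds
    simpa using hz
  obtain ⟨ε, hε, hb⟩ := Metric.mem_nhds_iff.1 h0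
  refine ⟨ε / 2, by positivity, interior_subset (hb ?_)⟩
  rw [Metric.mem_ball, Real.dist_eq, sub_zero, abs_of_pos (by positivity)]
  linarith

theorem U_ne (j : Fin 4) : ∃ d : ℂ, U j d ≠ 0 := by
  have hs := Q2.s2_pos
  fin_cases j
  · exact ⟨1, by show U 0 1 ≠ 0; rw [U0]; simp⟩
  · exact ⟨1, by show U 1 1 ≠ 0; rw [U1]; simp⟩
  · exact ⟨Complex.I, by show U 2 Complex.I ≠ 0; rw [U2]; simp⟩
  · exact ⟨Complex.I, by show U 3 Complex.I ≠ 0; rw [U3]; simp⟩

theorem interior_level (j : Fin 4) (c : ℝ) : interior {z | U j z = c} = ∅ := by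
  rw [Set.eq_empty_iff_forall_notMem]
  intro z hz
  obtain ⟨d, hd⟩ := U_ne j
  obtain ⟨δ, hδ, h1⟩ := exists_pos_of_interior hz d
  have h2 : z ∈ {z | U j z = c} := interior_subset hz
  change U j z = c at h2
  have h3 : U j (z + δ • d) = c := h1
  rw [map_add, map_smul, h2, smul_eq_mul] at h3
  have : δ * U j d = 0 := by linarith
  rcases mul_eq_zero.1 this with h | h
  · exact hδ.ne' h
  · exact hd h

/-- some line of the four directions separates the two regions -/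
def sep (B C : Box) : Bool :=
  decide (∃ j, (B.hi j).le (C.lo j) = true ∨ (C.hi j).le (B.lo j) = true)

theorem interior_inter_of_sep {B C : Box} (h : sep B C = true) :
    interior (B.set ∩ C.set) = ∅ := by
  simp only [sep, decide_eq_true_eq] at h
  obtain ⟨j, h | h⟩ := h
  · have h' := Q2.val_le h
    apply Set.subset_eq_empty _ (interior_level j (B.hi j).val)
    apply interior_mono
    rintro z ⟨hB, hC⟩
    have h1 := (hB j).2
    have h2 := (hC j).1
    show U j z = _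
    linarith
  · have h' := Q2.val_le h
    apply Set.subset_eq_empty _ (interior_level j (C.hi j).val)
    apply interior_mono
    rintro z ⟨hB, hC⟩
    have h1 := (hC j).2
    have h2 := (hB j).1
    show U j z = _
    linarith

end Pool.Agent.helper56.Oct
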