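import Pool.Agent.helper56.Oct.Tile

/-!
Every regular octagon is a similar copy of the octagon of side `4`; the final statement.
-/

set_option autoImplicit false

namespace Pool.Agent.helper56.Oct

open Set
open Pool.Agent.helper15.Hexagon (regularPolygon RectifiableBoundary CongruentDissection)

theorem exp_ze : Complex.exp (Real.pi * Complex.I / 4) = ze := by
  have h : (Real.pi * Complex.I / 4 : ℂ) = ((Real.pi / 4 : ℝ) : ℂ) * Complex.I := by
    push_cast; ring
  rw [h, Complex.exp_mul_I, ← Complex.ofReal_cos, ← Complex.ofReal_sin, Real.cos_pi_div_four,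
    Real.sin_pi_div_four]
  apply Complex.ext <;> simp [ze]

theorem exp_pow (k : ℕ) :
    Complex.exp (2 * Real.pi * Complex.I * (k : ℂ) / (8 : ℕ)) = ze ^ k := by
  rw [← exp_ze, ← Complex.exp_nat_mul]
  congr 1
  push_cast
  ring

/-- a vertex of the octagon of side `4` -/
noncomputable def w0 : ℂ := ⟨2 + 2 * √2, 2⟩

theorem w0_ne : w0 ≠ 0 := by
  intro h
  have := congrArg Complex.im h
  simp [w0] at this

theorem ze_mul (x y : ℝ) : ze * ⟨x, y⟩ = ⟨√2 / 2 * (x - y), √2 / 2 * (x + y)⟩ := by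
  apply Complex.ext
  · rw [Complex.mul_re]; simp only [ze]; ring
  · rw [Complex.mul_im]; simp only [ze]; ring

theorem w0_pow :
    w0 * ze ^ 0 = ⟨2 + 2 * √2, 2⟩ ∧ w0 * ze ^ 1 = ⟨2, 2 + 2 * √2⟩ ∧
    w0 * ze ^ 2 = ⟨-2, 2 + 2 * √2⟩ ∧ w0 * ze ^ 3 = ⟨-(2 + 2 * √2), 2⟩ ∧
    w0 * ze ^ 4 = ⟨-(2 + 2 * √2), -2⟩ ∧ w0 * ze ^ 5 = ⟨-2, -(2 + 2 * √2)⟩ ∧
    w0 * ze ^ 6 = ⟨2, -(2 + 2 * √2)⟩ ∧ w0 * ze ^ 7 = ⟨2 + 2 * √2, -2⟩ := by
  have hq := Q2.s2_sq
  have step : ∀ k : ℕ, w0 * ze ^ (k + 1) = ze * (w0 * ze ^ k) := by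
    intro k; rw [pow_succ]; ring
  have h0 : w0 * ze ^ 0 = ⟨2 + 2 * √2, 2⟩ := by rw [pow_zero, mul_one]; rfl
  have h1 : w0 * ze ^ 1 = ⟨2, 2 + 2 * √2⟩ := by
    rw [step, h0, ze_mul]; apply Complex.ext <;> simp only <;> nlinarith
  have h2 : w0 * ze ^ 2 = ⟨-2, 2 + 2 * √2⟩ := by
    rw [step, h1, ze_mul]; apply Complex.ext <;> simp only <;> nlinarith
  have h3 : w0 * ze ^ 3 = ⟨-(2 + 2 * √2), 2⟩ := by
    rw [step, h2, ze_mul]; apply Complex.ext <;> simp only <;> nlinarith
  have h4 : w0 * ze ^ 4 = ⟨-(2 + 2 * √2), -2⟩ := by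
    rw [step, h3, ze_mul]; apply Complex.ext <;> simp only <;> nlinarith
  have h5 : w0 * ze ^ 5 = ⟨-2, -(2 + 2 * √2)⟩ := by
    rw [step, h4, ze_mul]; apply Complex.ext <;> simp only <;> nlinarith
  have h6 : w0 * ze ^ 6 = ⟨2, -(2 + 2 * √2)⟩ := by
    rw [step, h5, ze_mul]; apply Complex.ext <;> simp only <;> nlinarith
  have h7 : w0 * ze ^ 7 = ⟨2 + 2 * √2, -2⟩ := by
    rw [step, h6, ze_mul]; apply Complex.ext <;> simp only <;> nlinarith
  exact ⟨h0, h1, h2, h3, h4, h5, h6, h7⟩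

theorem hull_eq : convexHull ℝ (Set.range fun k : Fin 8 => w0 * ze ^ (k : ℕ)) = boxO.set := by
  have s1 := s_lo
  have s2 := s_hi
  have hs := Q2.s2_pos
  obtain ⟨p0, p1, p2, p3, p4, p5, p6, p7⟩ := w0_pow
  apply Subset.antisymm
  · apply convexHull_min _ boxO.convex
    rintro _ ⟨k, rfl⟩
    rw [mem_boxO]
    fin_cases k
    · simp only [p0]
      refine ⟨⟨⟨?_, ?_⟩, ⟨?_, ?_⟩⟩, ⟨⟨?_, ?_⟩, ⟨?_, ?_⟩⟩⟩ <;> linarith
    · simp only [p1]
      refine ⟨⟨⟨?_, ?_⟩, ⟨?_, ?_⟩⟩, ⟨⟨?_, ?_⟩, ⟨?_, ?_⟩⟩⟩ <;> linarith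
    · simp only [p2]
      refine ⟨⟨⟨?_, ?_⟩, ⟨?_, ?_⟩⟩, ⟨⟨?_, ?_⟩, ⟨?_, ?_⟩⟩⟩ <;> linarith
    · simp only [p3]
      refine ⟨⟨⟨?_, ?_⟩, ⟨?_, ?_⟩⟩, ⟨⟨?_, ?_⟩, ⟨?_, ?_⟩⟩⟩ <;> linarith
    · simp only [p4]
      refine ⟨⟨⟨?_, ?_⟩, ⟨?_, ?_⟩⟩, ⟨⟨?_, ?_⟩, ⟨?_, ?_⟩⟩⟩ <;> linarith
    · simp only [p5]
      refine ⟨⟨⟨?_, ?_⟩, ⟨?_, ?_⟩⟩, ⟨⟨?_, ?_⟩, ⟨?_, ?_⟩⟩⟩ <;> linarith
    · simp only [p6]
      refine ⟨⟨⟨?_, ?_⟩, ⟨?_, ?_⟩⟩, ⟨⟨?_, ?_⟩, ⟨?_, ?_⟩⟩⟩ <;> linarith
    · simp only [p7]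
      refine ⟨⟨⟨?_, ?_⟩, ⟨?_, ?_⟩⟩, ⟨⟨?_, ?_⟩, ⟨?_, ?_⟩⟩⟩ <;> linarith
  · set C := convexHull ℝ (Set.range fun k : Fin 8 => w0 * ze ^ (k : ℕ)) with hC
    have hconv : Convex ℝ C := convex_convexHull ℝ _
    have hv : ∀ k : Fin 8, w0 * ze ^ (k : ℕ) ∈ C := fun k =>
      subset_convexHull ℝ _ ⟨k, rfl⟩
    have q0 : (⟨2 + 2 * √2, 2⟩ : ℂ) ∈ C := by rw [← p0]; exact hv 0
    have q1 : (⟨2, 2 + 2 * √2⟩ : ℂ) ∈ C := by rw [← p1]; exact hv 1
    have q2 : (⟨-2, 2 + 2 * √2⟩ : ℂ) ∈ C := by rw [← p2]; exact hv 2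
    have q3 : (⟨-(2 + 2 * √2), 2⟩ : ℂ) ∈ C := by rw [← p3]; exact hv 3
    have q4 : (⟨-(2 + 2 * √2), -2⟩ : ℂ) ∈ C := by rw [← p4]; exact hv 4
    have q5 : (⟨-2, -(2 + 2 * √2)⟩ : ℂ) ∈ C := by rw [← p5]; exact hv 5
    have q6 : (⟨2, -(2 + 2 * √2)⟩ : ℂ) ∈ C := by rw [← p6]; exact hv 6
    have q7 : (⟨2 + 2 * √2, -2⟩ : ℂ) ∈ C := by rw [← p7]; exact hv 7
    -- convex combinations in coordinates
    have comb : ∀ (x y x' y' t : ℝ), (⟨x, y⟩ : ℂ) ∈ C → (⟨x', y'⟩ : ℂ) ∈ C → 0 ≤ t → t ≤ 1 →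
        (⟨t * x + (1 - t) * x', t * y + (1 - t) * y'⟩ : ℂ) ∈ C := by
      intro x y x' y' t h h' h0 h1
      have h2 := hconv h h' h0 (by linarith : (0 : ℝ) ≤ 1 - t) (by ring)
      have e : t • (⟨x, y⟩ : ℂ) + (1 - t) • (⟨x', y'⟩ : ℂ) =
          ⟨t * x + (1 - t) * x', t * y + (1 - t) * y'⟩ := by
        apply Complex.ext <;> simp
      rwa [e] at h2
    -- a horizontal chord
    have chord : ∀ (r x y : ℝ), 0 < r → (⟨r, y⟩ : ℂ) ∈ C → (⟨-r, y⟩ : ℂ) ∈ C → -r ≤ x → x ≤ r →
        (⟨x, y⟩ : ℂ) ∈ C := by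
      intro r x y hr h h' h1 h2
      have h3 := comb r y (-r) y ((x + r) / (2 * r)) h h'
        (div_nonneg (by linarith) (by linarith)) ((div_le_one (by linarith)).2 (by linarith))
      have e1 : (x + r) / (2 * r) * r + (1 - (x + r) / (2 * r)) * -r = x := by
        field_simp; ring
      have e2 : (x + r) / (2 * r) * y + (1 - (x + r) / (2 * r)) * y = y := by ring
      rwa [e1, e2] at h3
    intro z hz
    rw [mem_boxO] at hz
    obtain ⟨⟨⟨h1, h2⟩, ⟨h3, h4⟩⟩, ⟨⟨h5, h6⟩, ⟨h7, h8⟩⟩⟩ := hz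
    obtain ⟨x, y⟩ := z
    simp only at h1 h2 h3 h4 h5 h6 h7 h8
    rcases le_total y 2 with hy | hy
    · rcases le_total (-2) y with hy' | hy'
      · -- the middle part
        apply chord (2 + 2 * √2) x y (by linarith) _ _ (by linarith) (by linarith)
        · have := comb _ _ _ _ ((y + 2) / 4) q0 q7 (by linarith) (by linarith)
          have e1 : (y + 2) / 4 * (2 + 2 * √2) + (1 - (y + 2) / 4) * (2 + 2 * √2) =
            2 + 2 * √2 := by ring
          have e2 : (y + 2) / 4 * 2 + (1 - (y + 2) / 4) * -2 = y := by ring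
          rwa [e1, e2] at this
        · have := comb _ _ _ _ ((y + 2) / 4) q3 q4 (by linarith) (by linarith)
          have e1 : (y + 2) / 4 * -(2 + 2 * √2) + (1 - (y + 2) / 4) * -(2 + 2 * √2) =
            -(2 + 2 * √2) := by ring
          have e2 : (y + 2) / 4 * 2 + (1 - (y + 2) / 4) * -2 = y := by ring
          rwa [e1, e2] at this
      · -- the lower part
        have t0 : 0 ≤ (y + 2 + 2 * √2) / (2 * √2) := div_nonneg (by linarith) (by linarith)
        have t1 : (y + 2 + 2 * √2) / (2 * √2) ≤ 1 := (div_le_one (by linarith)).2 (by linarith)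
        apply chord (4 + 2 * √2 + y) x y (by linarith) _ _ (by linarith) (by linarith)
        · have := comb _ _ _ _ ((y + 2 + 2 * √2) / (2 * √2)) q7 q6 t0 t1
          have e1 : (y + 2 + 2 * √2) / (2 * √2) * (2 + 2 * √2) +
            (1 - (y + 2 + 2 * √2) / (2 * √2)) * 2 = 4 + 2 * √2 + y := by
              field_simp; ring
          have e2 : (y + 2 + 2 * √2) / (2 * √2) * -2 +
            (1 - (y + 2 + 2 * √2) / (2 * √2)) * -(2 + 2 * √2) = y := by field_simp; ring
          rwa [e1, e2] at this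
        · have := comb _ _ _ _ ((y + 2 + 2 * √2) / (2 * √2)) q4 q5 t0 t1
          have e1 : (y + 2 + 2 * √2) / (2 * √2) * -(2 + 2 * √2) +
            (1 - (y + 2 + 2 * √2) / (2 * √2)) * -2 = -(4 + 2 * √2 + y) := by
              field_simp; ring
          have e2 : (y + 2 + 2 * √2) / (2 * √2) * -2 +
            (1 - (y + 2 + 2 * √2) / (2 * √2)) * -(2 + 2 * √2) = y := by field_simp; ring
          rwa [e1, e2] at this
    · -- the upper part
      have t0 : 0 ≤ (2 + 2 * √2 - y) / (2 * √2) := div_nonneg (by linarith) (by linarith)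
      have t1 : (2 + 2 * √2 - y) / (2 * √2) ≤ 1 := (div_le_one (by linarith)).2 (by linarith)
      apply chord (4 + 2 * √2 - y) x y (by linarith) _ _ (by linarith) (by linarith)
      · have := comb _ _ _ _ ((2 + 2 * √2 - y) / (2 * √2)) q0 q1 t0 t1
        have e1 : (2 + 2 * √2 - y) / (2 * √2) * (2 + 2 * √2) +
          (1 - (2 + 2 * √2 - y) / (2 * √2)) * 2 = 4 + 2 * √2 - y := by
            field_simp; ring
        have e2 : (2 + 2 * √2 - y) / (2 * √2) * 2 +
          (1 - (2 + 2 * √2 - y) / (2 * √2)) * (2 + 2 * √2) = y := by field_simp; ring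
        rwa [e1, e2] at this
      · have := comb _ _ _ _ ((2 + 2 * √2 - y) / (2 * √2)) q3 q2 t0 t1
        have e1 : (2 + 2 * √2 - y) / (2 * √2) * -(2 + 2 * √2) +
          (1 - (2 + 2 * √2 - y) / (2 * √2)) * -2 = -(4 + 2 * √2 - y) := by
            field_simp; ring
        have e2 : (2 + 2 * √2 - y) / (2 * √2) * 2 +
          (1 - (2 + 2 * √2 - y) / (2 * √2)) * (2 + 2 * √2) = y := by field_simp; ring
        rwa [e1, e2] at this

/-- the similarity carrying the octagon of side `4` to the given one -/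
noncomputable def simAff (c v : ℂ) : ℂ →ᵃ[ℝ] ℂ :=
  (LinearMap.mulLeft ℝ (v / w0)).toAffineMap + AffineMap.const ℝ ℂ c

theorem simAff_apply (c v z : ℂ) : simAff c v z = c + v / w0 * z := by
  simp [simAff, add_comm]

noncomputable def sim (c v : ℂ) (hv : v ≠ 0) : ℂ ≃ₜ ℂ :=
  (Homeomorph.mulLeft₀ (v / w0) (div_ne_zero hv w0_ne)).trans (Homeomorph.addLeft c)

theorem sim_apply (c v : ℂ) (hv : v ≠ 0) (z : ℂ) : sim c v hv z = c + v / w0 * z := rfl

theorem polygon_eq (c v : ℂ) (hv : v ≠ 0) :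
    regularPolygon 8 c v = sim c v hv '' boxO.set := by
  have h1 : (sim c v hv : ℂ → ℂ) = simAff c v := by
    funext z; rw [simAff_apply]; rfl
  rw [h1, ← hull_eq, AffineMap.image_convexHull, regularPolygon, ← Set.range_comp]
  congr 2
  funext k
  rw [Function.comp_apply, simAff_apply, exp_pow]
  have := w0_ne
  field_simp

theorem sim_dist (c v : ℂ) (hv : v ≠ 0) (x y : ℂ) :
    dist (sim c v hv x) (sim c v hv y) = ‖v / w0‖ * dist x y := by
  rw [sim_apply, sim_apply, dist_add_left, Complex.dist_eq, Complex.dist_eq, ← mul_sub, norm_mul]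

theorem main (c v : ℂ) (hv : v ≠ 0) :
    ∃ P : Fin 8 → Set ℂ, CongruentDissection (regularPolygon 8 c v) 8 P ∧
      c ∈ interior (P 0) ∧ ∀ i, ∃ z ∈ interior (P i), StarConvex ℝ z (P i) := by
  choose g hgU hgW using exists_g
  have hg : ∀ i, g i '' tile = piece i := by
    intro i
    rw [tile, image_union, hgU, hgW]; rfl
  set s := sim c v hv with hs
  have hpos : 0 < ‖v / w0‖ := norm_pos_iff.2 (div_ne_zero hv w0_ne)
  -- the homeomorphism carrying the prototile to the piece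
  have hP : ∀ i, s '' piece i = ((g i).toHomeomorph.trans s) '' tile := by
    intro i
    rw [← hg i, image_image]; rfl
  refine ⟨fun i => s '' piece i, ?_, ?_, ?_⟩
  · refine ⟨by norm_num, ?_, ?_, ?_, ?_, ?_, ?_⟩
    · intro i
      exact (((pU i).isCompact.union (pW i).isCompact)).image s.continuous
    · intro i
      show closure (interior (s '' piece i)) = s '' piece i
      rw [hP i, ← Homeomorph.image_interior, ← Homeomorph.image_closure, closure_interior_tile]
    · intro i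
      show RectifiableBoundary (s '' piece i)
      rw [hP i]
      set φ := (g i).toHomeomorph.trans s with hφ
      have hφd : ∀ x y, dist (φ x) (φ y) = ‖v / w0‖ * dist x y := by
        intro x y
        show dist (s (g i x)) (s (g i y)) = _
        rw [hs, sim_dist, (g i).dist_eq]
      refine ⟨6, fun k t => φ (side k t), ?_, ?_⟩
      · intro k
        refine ⟨(φ.continuous.comp (side_continuous k)).continuousOn,
          (φ.injective.comp (side_inj k)).injOn, ?_⟩
        have hL : LipschitzWith ‖v / w0‖₊ φ :=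
          LipschitzWith.of_dist_le_mul fun x y => (hφd x y).le
        exact hL.comp_boundedVariationOn (side_bv k)
      · rw [← Homeomorph.image_frontier, frontier_tile_sides, image_iUnion]
        congr 1
        funext k
        rw [image_image]
    · show ⋃ i, s '' piece i = regularPolygon 8 c v
      rw [← image_iUnion, cover, polygon_eq c v hv]
    · intro i j hij
      show Disjoint (interior (s '' piece i)) (interior (s '' piece j))
      rw [← Homeomorph.image_interior, ← Homeomorph.image_interior,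
        disjoint_image_iff s.injective]
      exact disj i j hij
    · intro i j
      set e : ℂ ≃ᵢ ℂ := (g i).symm.trans (g j) with he
      have he' : e '' piece i = piece j := by
        rw [← hg i, ← hg j, image_image]
        apply image_congr
        intro x _
        show g j ((g i).symm (g i x)) = g j x
        rw [(g i).symm_apply_apply]
      have hiso : Isometry (fun z => s (e (s.symm z))) := by
        apply Isometry.of_dist_eq
        intro x y
        have h1 := sim_dist c v hv (s.symm x) (s.symm y)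
        rw [← hs, s.apply_symm_apply, s.apply_symm_apply] at h1
        show dist (s (e (s.symm x))) (s (e (s.symm y))) = dist x y
        rw [hs, sim_dist, ← hs, e.dist_eq, ← h1]
      refine ⟨IsometryEquiv.mk (s.symm.toEquiv.trans (e.toEquiv.trans s.toEquiv)) hiso, ?_⟩
      show (fun z => s (e (s.symm z))) '' (s '' piece i) = s '' piece j
      rw [image_image, ← he', image_image]
      apply image_congr
      intro x _
      rw [s.symm_apply_apply]
  · show c ∈ interior (s '' piece 0)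
    rw [← Homeomorph.image_interior]
    exact ⟨0, zero_mem, by rw [hs, sim_apply]; simp⟩
  · intro i
    refine ⟨s (g i mid), ?_, ?_⟩
    · show s (g i mid) ∈ interior (s '' piece i)
      rw [← Homeomorph.image_interior]
      refine ⟨_, ?_, rfl⟩
      rw [← hg i]
      have h : (g i).toHomeomorph '' interior tile = interior (g i '' tile) :=
        Homeomorph.image_interior _ _
      rw [← h]
      exact ⟨_, interior_mono subset_union_left mid_mem_U, rfl⟩
    · have hst : StarConvex ℝ (g i mid) (piece i) := by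
        apply StarConvex.union
        · apply (pU i).convex.starConvex
          rw [← hgU i]
          exact ⟨_, interior_subset mid_mem_U, rfl⟩
        · apply (pW i).convex.starConvex
          rw [← hgW i]
          exact ⟨_, interior_subset mid_mem_W, rfl⟩
      rintro _ ⟨y, hy, rfl⟩ a b ha hb hab
      refine ⟨a • g i mid + b • y, hst hy ha hb hab, ?_⟩
      rw [hs, sim_apply, sim_apply, sim_apply]
      simp only [Complex.real_smul]
      have hab' : (a : ℂ) + b = 1 := by exact_mod_cast hab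
      linear_combination (-c) * hab'

end Pool.Agent.helper56.Oct
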