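import Pool.Agent.helper56.Oct.Coord

/-!
The eight pieces of the octagon of side `4`, and the finite verifications.
-/

set_option autoImplicit false
set_option linter.unusedVariables false

namespace Pool.Agent.helper56.Oct

open Set

/-- the two boxes whose union is the prototile -/
def boxU : Box := ⟨![⟨0, -1⟩, ⟨0, 0⟩, ⟨0, 0⟩, ⟨0, -2⟩], ![⟨4, 1⟩, ⟨2, 2⟩, ⟨0, 1⟩, ⟨2, 0⟩]⟩
def boxW : Box := ⟨![⟨4, -2⟩, ⟨-2, 2⟩, ⟨0, 0⟩, ⟨0, -2⟩], ![⟨4, 1⟩, ⟨2, 2⟩, ⟨0, 2⟩, ⟨2, -2⟩]⟩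

/-- the octagon of side `4` -/
def boxO : Box := ⟨![⟨-2, -2⟩, ⟨-2, -2⟩, ⟨-2, -2⟩, ⟨-2, -2⟩], ![⟨2, 2⟩, ⟨2, 2⟩, ⟨2, 2⟩, ⟨2, 2⟩]⟩

def Box.rot (B : Box) : Box :=
  ⟨![-B.hi 3, B.lo 0, B.lo 1, B.lo 2], ![-B.lo 3, B.hi 0, B.hi 1, B.hi 2]⟩
def Box.conj (B : Box) : Box :=
  ⟨![B.lo 0, -B.hi 3, -B.hi 2, -B.hi 1], ![B.hi 0, -B.lo 3, -B.lo 2, -B.lo 1]⟩
/-- the values of the functionals at the point `2 (a + b ζ + c ζ ^ 2 + d ζ ^ 3)` -/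
def sh (a b c d : ℤ) : Fin 4 → Q2 :=
  ![⟨2 * a, b - d⟩, ⟨2 * b, a + c⟩, ⟨2 * c, b + d⟩, ⟨2 * d, c - a⟩]
def Box.tr (a b c d : ℤ) (B : Box) : Box :=
  ⟨fun j => B.lo j + sh a b c d j, fun j => B.hi j + sh a b c d j⟩

/-- an isometry acting on boxes in a prescribed way -/
def Acts (g : ℂ ≃ᵢ ℂ) (T : Box → Box) : Prop := ∀ B : Box, g '' B.set = (T B).set

theorem Acts.of_mem {g : ℂ ≃ᵢ ℂ} {T : Box → Box} (h : ∀ B z, g z ∈ (T B).set ↔ z ∈ B.set) :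
    Acts g T := by
  intro B
  ext w
  constructor
  · rintro ⟨z, hz, rfl⟩
    exact (h B z).2 hz
  · intro hw
    refine ⟨g.symm w, ?_, g.apply_symm_apply w⟩
    rw [← h B, g.apply_symm_apply]; exact hw

theorem Acts.comp {g g' : ℂ ≃ᵢ ℂ} {T T' : Box → Box} (h : Acts g T) (h' : Acts g' T') :
    Acts (g.trans g') (T' ∘ T) := by
  intro B
  have e : (g.trans g') '' B.set = g' '' (g '' B.set) := by
    rw [image_image]; rfl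
  rw [e, h B, h' (T B)]; rfl

/-- the primitive eighth root of unity -/
noncomputable def ze : ℂ := ⟨√2 / 2, √2 / 2⟩

theorem ze_norm : ‖ze‖ = 1 := by
  have h : ‖ze‖ ^ 2 = 1 := by
    rw [← Complex.normSq_eq_norm_sq, Complex.normSq_apply]
    simp only [ze]
    have := Q2.s2_sq; nlinarith
  have h0 : 0 ≤ ‖ze‖ := norm_nonneg _
  nlinarith

theorem ze_ne : ze ≠ 0 := by
  intro h
  have := ze_norm
  rw [h, norm_zero] at this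
  exact zero_ne_one this

theorem U_ze_mul (z : ℂ) : U 0 (ze * z) = -U 3 z ∧ U 1 (ze * z) = U 0 z ∧
    U 2 (ze * z) = U 1 z ∧ U 3 (ze * z) = U 2 z := by
  have hq := Q2.s2_sq
  simp only [U0, U1, U2, U3, Complex.mul_re, Complex.mul_im, ze]
  refine ⟨by ring, ?_, by ring, ?_⟩
  · have : √2 / 2 * (√2 / 2 * z.re - √2 / 2 * z.im + (√2 / 2 * z.im + √2 / 2 * z.re)) =
      (√2 * √2) / 2 * z.re := by ring
    rw [this, hq]; ring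
  · have : √2 / 2 * (√2 / 2 * z.im + √2 / 2 * z.re - (√2 / 2 * z.re - √2 / 2 * z.im)) =
      (√2 * √2) / 2 * z.im := by ring
    rw [this, hq]; ring

theorem exists_rot : ∃ g : ℂ ≃ᵢ ℂ, Acts g Box.rot := by
  let e : ℂ ≃ ℂ := Equiv.mulLeft₀ ze ze_ne
  have he : Isometry e := by
    apply Isometry.of_dist_eq
    intro x y
    show dist (ze * x) (ze * y) = dist x y
    rw [Complex.dist_eq, Complex.dist_eq, ← mul_sub, norm_mul, ze_norm, one_mul]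
  refine ⟨⟨e, he⟩, Acts.of_mem ?_⟩
  intro B z
  have h1 : (⟨e, he⟩ : ℂ ≃ᵢ ℂ) z = ze * z := rfl
  rw [h1]
  obtain ⟨a0, a1, a2, a3⟩ := U_ze_mul z
  have b3 := Q2.val_neg (B.hi 3)
  have b3' := Q2.val_neg (B.lo 3)
  constructor
  · intro h
    have h0 : (-B.hi 3).val ≤ U 0 (ze * z) ∧ U 0 (ze * z) ≤ (-B.lo 3).val := h 0
    have h1 : (B.lo 0).val ≤ U 1 (ze * z) ∧ U 1 (ze * z) ≤ (B.hi 0).val := h 1
    have h2 : (B.lo 1).val ≤ U 2 (ze * z) ∧ U 2 (ze * z) ≤ (B.hi 1).val := h 2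
    have h3 : (B.lo 2).val ≤ U 3 (ze * z) ∧ U 3 (ze * z) ≤ (B.hi 2).val := h 3
    rw [a0, b3, b3'] at h0
    rw [a1] at h1
    rw [a2] at h2
    rw [a3] at h3
    intro j
    fin_cases j
    · exact h1
    · exact h2
    · exact h3
    · exact ⟨neg_le_neg_iff.1 h0.2, neg_le_neg_iff.1 h0.1⟩
  · intro h
    have h0 := h 0
    have h1 := h 1
    have h2 := h 2
    have h3 := h 3
    intro j
    fin_cases j
    · show (-B.hi 3).val ≤ U 0 (ze * z) ∧ U 0 (ze * z) ≤ (-B.lo 3).val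
      rw [a0, b3, b3']
      exact ⟨by linarith [h3.2], by linarith [h3.1]⟩
    · show (B.lo 0).val ≤ U 1 (ze * z) ∧ U 1 (ze * z) ≤ (B.hi 0).val
      rw [a1]; exact h0
    · show (B.lo 1).val ≤ U 2 (ze * z) ∧ U 2 (ze * z) ≤ (B.hi 1).val
      rw [a2]; exact h1
    · show (B.lo 2).val ≤ U 3 (ze * z) ∧ U 3 (ze * z) ≤ (B.hi 2).val
      rw [a3]; exact h2

theorem U_conj (z : ℂ) : U 0 (starRingEnd ℂ z) = U 0 z ∧ U 1 (starRingEnd ℂ z) = -U 3 z ∧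
    U 2 (starRingEnd ℂ z) = -U 2 z ∧ U 3 (starRingEnd ℂ z) = -U 1 z := by
  simp only [U0, U1, U2, U3, Complex.conj_re, Complex.conj_im]
  refine ⟨?_, ?_, ?_, ?_⟩ <;> first | trivial | rfl | ring

theorem exists_conj : ∃ g : ℂ ≃ᵢ ℂ, Acts g Box.conj := by
  refine ⟨Complex.conjLIE.toIsometryEquiv, Acts.of_mem ?_⟩
  intro B z
  have h1 : Complex.conjLIE.toIsometryEquiv z = starRingEnd ℂ z := rfl
  rw [h1]
  obtain ⟨a0, a1, a2, a3⟩ := U_conj z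
  have b1 := Q2.val_neg (B.hi 1)
  have b1' := Q2.val_neg (B.lo 1)
  have b2 := Q2.val_neg (B.hi 2)
  have b2' := Q2.val_neg (B.lo 2)
  have b3 := Q2.val_neg (B.hi 3)
  have b3' := Q2.val_neg (B.lo 3)
  constructor
  · intro h
    have h0 : (B.lo 0).val ≤ U 0 (starRingEnd ℂ z) ∧ U 0 (starRingEnd ℂ z) ≤ (B.hi 0).val := h 0
    have h1 : (-B.hi 3).val ≤ U 1 (starRingEnd ℂ z) ∧
      U 1 (starRingEnd ℂ z) ≤ (-B.lo 3).val := h 1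
    have h2 : (-B.hi 2).val ≤ U 2 (starRingEnd ℂ z) ∧
      U 2 (starRingEnd ℂ z) ≤ (-B.lo 2).val := h 2
    have h3 : (-B.hi 1).val ≤ U 3 (starRingEnd ℂ z) ∧
      U 3 (starRingEnd ℂ z) ≤ (-B.lo 1).val := h 3
    rw [a0] at h0
    rw [a1, b3, b3'] at h1
    rw [a2, b2, b2'] at h2
    rw [a3, b1, b1'] at h3
    intro j
    fin_cases j
    · exact h0
    · exact ⟨neg_le_neg_iff.1 h3.2, neg_le_neg_iff.1 h3.1⟩
    · exact ⟨neg_le_neg_iff.1 h2.2, neg_le_neg_iff.1 h2.1⟩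
    · exact ⟨neg_le_neg_iff.1 h1.2, neg_le_neg_iff.1 h1.1⟩
  · intro h
    have h0 := h 0
    have h1 := h 1
    have h2 := h 2
    have h3 := h 3
    intro j
    fin_cases j
    · show (B.lo 0).val ≤ U 0 (starRingEnd ℂ z) ∧ U 0 (starRingEnd ℂ z) ≤ (B.hi 0).val
      rw [a0]; exact h0
    · show (-B.hi 3).val ≤ U 1 (starRingEnd ℂ z) ∧ U 1 (starRingEnd ℂ z) ≤ (-B.lo 3).val
      rw [a1, b3, b3']
      exact ⟨by linarith [h3.2], by linarith [h3.1]⟩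
    · show (-B.hi 2).val ≤ U 2 (starRingEnd ℂ z) ∧ U 2 (starRingEnd ℂ z) ≤ (-B.lo 2).val
      rw [a2, b2, b2']
      exact ⟨by linarith [h2.2], by linarith [h2.1]⟩
    · show (-B.hi 1).val ≤ U 3 (starRingEnd ℂ z) ∧ U 3 (starRingEnd ℂ z) ≤ (-B.lo 1).val
      rw [a3, b1, b1']
      exact ⟨by linarith [h1.2], by linarith [h1.1]⟩

/-- the translation vector -/
noncomputable def tv (a b c d : ℤ) : ℂ :=
  ⟨2 * a + (b - d) * √2, 2 * c + (b + d) * √2⟩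

theorem U_tv (a b c d : ℤ) (j : Fin 4) : U j (tv a b c d) = (sh a b c d j).val := by
  have hq := Q2.s2_sq
  fin_cases j
  · show U 0 (tv a b c d) = (⟨2 * a, b - d⟩ : Q2).val
    rw [U0, Q2.val, tv]; push_cast; ring
  · show U 1 (tv a b c d) = (⟨2 * b, a + c⟩ : Q2).val
    rw [U1, Q2.val, tv]; push_cast
    have : √2 / 2 * (2 * (a : ℝ) + (b - d) * √2 + (2 * c + (b + d) * √2)) =
      (a + c) * √2 + (√2 * √2) * b := by ring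
    rw [this, hq]; ring
  · show U 2 (tv a b c d) = (⟨2 * c, b + d⟩ : Q2).val
    rw [U2, Q2.val, tv]; push_cast; ring
  · show U 3 (tv a b c d) = (⟨2 * d, c - a⟩ : Q2).val
    rw [U3, Q2.val, tv]; push_cast
    have : √2 / 2 * (2 * (c : ℝ) + (b + d) * √2 - (2 * a + (b - d) * √2)) =
      (c - a) * √2 + (√2 * √2) * d := by ring
    rw [this, hq]; ring

theorem exists_tr (a b c d : ℤ) : ∃ g : ℂ ≃ᵢ ℂ, Acts g (Box.tr a b c d) := by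
  refine ⟨IsometryEquiv.addRight (tv a b c d), Acts.of_mem ?_⟩
  intro B z
  have h1 : IsometryEquiv.addRight (tv a b c d) z = z + tv a b c d := rfl
  rw [h1]
  have key : ∀ j, (((B.tr a b c d).lo j).val ≤ U j (z + tv a b c d) ∧
      U j (z + tv a b c d) ≤ ((B.tr a b c d).hi j).val) ↔
      ((B.lo j).val ≤ U j z ∧ U j z ≤ (B.hi j).val) := by
    intro j
    have e1 : ((B.tr a b c d).lo j).val = (B.lo j).val + (sh a b c d j).val :=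
      Q2.val_add _ _
    have e2 : ((B.tr a b c d).hi j).val = (B.hi j).val + (sh a b c d j).val :=
      Q2.val_add _ _
    rw [e1, e2, map_add, U_tv, add_le_add_iff_right, add_le_add_iff_right]
  exact forall_congr' key

theorem exists_id : ∃ g : ℂ ≃ᵢ ℂ, Acts g id :=
  ⟨IsometryEquiv.refl ℂ, fun B => by
    have e : (IsometryEquiv.refl ℂ) '' B.set = (fun z : ℂ => z) '' B.set := rfl
    rw [e, image_id']; rfl⟩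

theorem exists_rot_iter (k : ℕ) : ∃ g : ℂ ≃ᵢ ℂ, Acts g (Box.rot^[k]) := by
  induction k with
  | zero => exact exists_id
  | succ k ih =>
    obtain ⟨g, hg⟩ := ih
    obtain ⟨r, hr⟩ := exists_rot
    refine ⟨g.trans r, ?_⟩
    rw [Function.iterate_succ']
    exact hg.comp hr

/-- box transformation with code `(f, k, (a, b, c, d))`: reflect if `f`, rotate `k` times,
translate -/
def act (f : Bool) (k : ℕ) (t : ℤ × ℤ × ℤ × ℤ) (B : Box) : Box :=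
  Box.tr t.1 t.2.1 t.2.2.1 t.2.2.2 (Box.rot^[k] (if f then B.conj else B))

theorem exists_act (f : Bool) (k : ℕ) (t : ℤ × ℤ × ℤ × ℤ) :
    ∃ g : ℂ ≃ᵢ ℂ, Acts g (act f k t) := by
  obtain ⟨u, ht⟩ := exists_tr t.1 t.2.1 t.2.2.1 t.2.2.2
  obtain ⟨r, hr⟩ := exists_rot_iter k
  obtain ⟨c, hc⟩ := exists_conj
  cases f with
  | false =>
    exact ⟨r.trans u, hr.comp ht⟩
  | true =>
    exact ⟨(c.trans r).trans u, (hc.comp hr).comp ht⟩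

/-- the codes of the eight pieces -/
def codes : List (Bool × ℕ × (ℤ × ℤ × ℤ × ℤ)) :=
  [(false, 4, (1, 1, -1, 1)),
   (false, 0, (-1, -1, -1, -1)),
   (true, 0, (-1, 1, -1, 0)),
   (false, 3, (1, 1, 0, -1)),
   (false, 3, (1, 1, 1, -1)),
   (true, 4, (1, -1, -1, 0)),
   (true, 1, (-1, -1, 0, 1)),
   (true, 1, (-1, -1, 1, 1))]

def code (i : Fin 8) : Bool × ℕ × (ℤ × ℤ × ℤ × ℤ) := codes.getD i.1 (false, 0, (0, 0, 0, 0))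

def pU (i : Fin 8) : Box := act (code i).1 (code i).2.1 (code i).2.2 boxU
def pW (i : Fin 8) : Box := act (code i).1 (code i).2.1 (code i).2.2 boxW

/-- the pieces -/
def piece (i : Fin 8) : Set ℂ := (pU i).set ∪ (pW i).set

def tile : Set ℂ := boxU.set ∪ boxW.set

theorem exists_g (i : Fin 8) :
    ∃ g : ℂ ≃ᵢ ℂ, g '' boxU.set = (pU i).set ∧ g '' boxW.set = (pW i).set := by
  obtain ⟨g, hg⟩ := exists_act (code i).1 (code i).2.1 (code i).2.2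
  exact ⟨g, hg _, hg _⟩

/-- every box of a piece lies in the octagon -/
def Box.sub (B C : Box) : Bool :=
  decide (∀ j, (C.lo j).le (B.lo j) = true ∧ (B.hi j).le (C.hi j) = true)

theorem Box.sub_set {B C : Box} (h : B.sub C = true) : B.set ⊆ C.set := by
  simp only [Box.sub, decide_eq_true_eq] at h
  intro z hz j
  exact ⟨(Q2.val_le (h j).1).trans (hz j).1, (hz j).2.trans (Q2.val_le (h j).2)⟩

theorem sub_check : ∀ i : Fin 8, (pU i).sub boxO = true ∧ (pW i).sub boxO = true := by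
  decide +kernel

theorem sep_check : ∀ i j : Fin 8, i ≠ j →
    sep (pU i) (pU j) = true ∧ sep (pU i) (pW j) = true ∧ sep (pW i) (pW j) = true := by
  decide +kernel

theorem mem_part0 (x y s : ℝ) (hs : s = √2)
    (l0 : (-2) - 1 * s ≤ x) (u0 : x ≤ 2 + 1 * s)
    (l1 : (-4) ≤ x + y) (u1 : x + y ≤ 2 * s)
    (l2 : (-2) + 1 * s ≤ y) (u2 : y ≤ (-2) + 2 * s)
    (l3 : (-4) ≤ y - x) (u3 : y - x ≤ 2 * s) :
    (⟨x, y⟩ : ℂ) ∈ ⋃ i, piece i := by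
  have e : pU 0 = ⟨![⟨-2, -1⟩, ⟨0, -2⟩, ⟨-2, 1⟩, ⟨0, -2⟩], ![⟨2, 1⟩, ⟨2, 0⟩, ⟨-2, 2⟩, ⟨2, 0⟩]⟩ :=
    Box.ext_of (by decide +kernel) (by decide +kernel)
  refine mem_iUnion.2 ⟨0, Or.inl ?_⟩
  rw [e, Box.mem_iff, ← hs]
  simp only [Matrix.cons_val]
  push_cast
  refine ⟨⟨⟨?_, ?_⟩, ⟨?_, ?_⟩⟩, ⟨⟨?_, ?_⟩, ⟨?_, ?_⟩⟩⟩ <;> linarith

theorem mem_part1 (x y s : ℝ) (hs : s = √2)
    (l0 : (-2) - 1 * s ≤ x) (u0 : x ≤ (-2) + 2 * s)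
    (l1 : (-4) ≤ x + y) (u1 : x + y ≤ (-4) + 4 * s)
    (l2 : (-2) ≤ y) (u2 : y ≤ (-2) + 2 * s)
    (l3 : 0 ≤ y - x) (u3 : y - x ≤ 2 * s) :
    (⟨x, y⟩ : ℂ) ∈ ⋃ i, piece i := by
  have e : pW 0 = ⟨![⟨-2, -1⟩, ⟨0, -2⟩, ⟨-2, 0⟩, ⟨0, 0⟩], ![⟨-2, 2⟩, ⟨4, -2⟩, ⟨-2, 2⟩, ⟨2, 0⟩]⟩ :=
    Box.ext_of (by decide +kernel) (by decide +kernel)
  refine mem_iUnion.2 ⟨0, Or.inr ?_⟩
  rw [e, Box.mem_iff, ← hs]
  simp only [Matrix.cons_val]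
  push_cast
  refine ⟨⟨⟨?_, ?_⟩, ⟨?_, ?_⟩⟩, ⟨⟨?_, ?_⟩, ⟨?_, ?_⟩⟩⟩ <;> linarith

theorem mem_part2 (x y s : ℝ) (hs : s = √2)
    (l0 : (-2) - 1 * s ≤ x) (u0 : x ≤ 2 + 1 * s)
    (l1 : (-4) - 2 * s ≤ x + y) (u1 : x + y ≤ 0)
    (l2 : (-2) - 2 * s ≤ y) (u2 : y ≤ (-2) - 1 * s)
    (l3 : (-4) - 2 * s ≤ y - x) (u3 : y - x ≤ 0) :
    (⟨x, y⟩ : ℂ) ∈ ⋃ i, piece i := by
  have e : pU 1 = ⟨![⟨-2, -1⟩, ⟨-2, -2⟩, ⟨-2, -2⟩, ⟨-2, -2⟩], ![⟨2, 1⟩, ⟨0, 0⟩, ⟨-2, -1⟩, ⟨0, 0⟩]⟩ :=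
    Box.ext_of (by decide +kernel) (by decide +kernel)
  refine mem_iUnion.2 ⟨1, Or.inl ?_⟩
  rw [e, Box.mem_iff, ← hs]
  simp only [Matrix.cons_val]
  push_cast
  refine ⟨⟨⟨?_, ?_⟩, ⟨?_, ?_⟩⟩, ⟨⟨?_, ?_⟩, ⟨?_, ?_⟩⟩⟩ <;> linarith

theorem mem_part3 (x y s : ℝ) (hs : s = √2)
    (l0 : 2 - 2 * s ≤ x) (u0 : x ≤ 2 + 1 * s)
    (l1 : (-4) * s ≤ x + y) (u1 : x + y ≤ 0)
    (l2 : (-2) - 2 * s ≤ y) (u2 : y ≤ (-2))
    (l3 : (-4) - 2 * s ≤ y - x) (u3 : y - x ≤ (-4)) :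
    (⟨x, y⟩ : ℂ) ∈ ⋃ i, piece i := by
  have e : pW 1 = ⟨![⟨2, -2⟩, ⟨-4, 0⟩, ⟨-2, -2⟩, ⟨-2, -2⟩], ![⟨2, 1⟩, ⟨0, 0⟩, ⟨-2, 0⟩, ⟨0, -2⟩]⟩ :=
    Box.ext_of (by decide +kernel) (by decide +kernel)
  refine mem_iUnion.2 ⟨1, Or.inr ?_⟩
  rw [e, Box.mem_iff, ← hs]
  simp only [Matrix.cons_val]
  push_cast
  refine ⟨⟨⟨?_, ?_⟩, ⟨?_, ?_⟩⟩, ⟨⟨?_, ?_⟩, ⟨?_, ?_⟩⟩⟩ <;> linarith

theorem mem_part4 (x y s : ℝ) (hs : s = √2)
    (l0 : (-2) ≤ x) (u0 : x ≤ 2 + 2 * s)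
    (l1 : (-4) ≤ x + y) (u1 : x + y ≤ 2 * s)
    (l2 : (-2) ≤ y) (u2 : y ≤ (-2) + 1 * s)
    (l3 : (-4) - 2 * s ≤ y - x) (u3 : y - x ≤ 0) :
    (⟨x, y⟩ : ℂ) ∈ ⋃ i, piece i := by
  have e : pU 2 = ⟨![⟨-2, 0⟩, ⟨0, -2⟩, ⟨-2, 0⟩, ⟨-2, -2⟩], ![⟨2, 2⟩, ⟨2, 0⟩, ⟨-2, 1⟩, ⟨0, 0⟩]⟩ :=
    Box.ext_of (by decide +kernel) (by decide +kernel)
  refine mem_iUnion.2 ⟨2, Or.inl ?_⟩
  rw [e, Box.mem_iff, ← hs]
  simp only [Matrix.cons_val]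
  push_cast
  refine ⟨⟨⟨?_, ?_⟩, ⟨?_, ?_⟩⟩, ⟨⟨?_, ?_⟩, ⟨?_, ?_⟩⟩⟩ <;> linarith

theorem mem_part5 (x y s : ℝ) (hs : s = √2)
    (l0 : 2 - 1 * s ≤ x) (u0 : x ≤ 2 + 2 * s)
    (l1 : 0 ≤ x + y) (u1 : x + y ≤ 2 * s)
    (l2 : (-2) - 1 * s ≤ y) (u2 : y ≤ (-2) + 1 * s)
    (l3 : (-4) - 2 * s ≤ y - x) (u3 : y - x ≤ (-4) + 2 * s) :
    (⟨x, y⟩ : ℂ) ∈ ⋃ i, piece i := by
  have e : pW 2 = ⟨![⟨2, -1⟩, ⟨0, 0⟩, ⟨-2, -1⟩, ⟨-2, -2⟩], ![⟨2, 2⟩, ⟨2, 0⟩, ⟨-2, 1⟩, ⟨2, -2⟩]⟩ :=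
    Box.ext_of (by decide +kernel) (by decide +kernel)
  refine mem_iUnion.2 ⟨2, Or.inr ?_⟩
  rw [e, Box.mem_iff, ← hs]
  simp only [Matrix.cons_val]
  push_cast
  refine ⟨⟨⟨?_, ?_⟩, ⟨?_, ?_⟩⟩, ⟨⟨?_, ?_⟩, ⟨?_, ?_⟩⟩⟩ <;> linarith

theorem mem_part6 (x y s : ℝ) (hs : s = √2)
    (l0 : 0 ≤ x) (u0 : x ≤ 2 + 2 * s)
    (l1 : 2 * s ≤ x + y) (u1 : x + y ≤ 2 + 2 * s)
    (l2 : (-2) ≤ y) (u2 : y ≤ 2 * s)
    (l3 : (-4) - 2 * s ≤ y - x) (u3 : y - x ≤ 2 * s) :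
    (⟨x, y⟩ : ℂ) ∈ ⋃ i, piece i := by
  have e : pU 3 = ⟨![⟨0, 0⟩, ⟨2, 0⟩, ⟨-2, 0⟩, ⟨-2, -2⟩], ![⟨2, 2⟩, ⟨2, 1⟩, ⟨0, 2⟩, ⟨2, 0⟩]⟩ :=
    Box.ext_of (by decide +kernel) (by decide +kernel)
  refine mem_iUnion.2 ⟨3, Or.inl ?_⟩
  rw [e, Box.mem_iff, ← hs]
  simp only [Matrix.cons_val]
  push_cast
  refine ⟨⟨⟨?_, ?_⟩, ⟨?_, ?_⟩⟩, ⟨⟨?_, ?_⟩, ⟨?_, ?_⟩⟩⟩ <;> linarith

theorem mem_part7 (x y s : ℝ) (hs : s = √2)
    (l0 : 0 ≤ x) (u0 : x ≤ 4)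
    (l1 : (-2) + 2 * s ≤ x + y) (u1 : x + y ≤ 2 + 2 * s)
    (l2 : (-2) + 2 * s ≤ y) (u2 : y ≤ 2 * s)
    (l3 : (-6) + 2 * s ≤ y - x) (u3 : y - x ≤ 2 * s) :
    (⟨x, y⟩ : ℂ) ∈ ⋃ i, piece i := by
  have e : pW 3 = ⟨![⟨0, 0⟩, ⟨2, -1⟩, ⟨-2, 2⟩, ⟨2, -3⟩], ![⟨4, 0⟩, ⟨2, 1⟩, ⟨0, 2⟩, ⟨2, 0⟩]⟩ :=
    Box.ext_of (by decide +kernel) (by decide +kernel)
  refine mem_iUnion.2 ⟨3, Or.inr ?_⟩
  rw [e, Box.mem_iff, ← hs]
  simp only [Matrix.cons_val]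
  push_cast
  refine ⟨⟨⟨?_, ?_⟩, ⟨?_, ?_⟩⟩, ⟨⟨?_, ?_⟩, ⟨?_, ?_⟩⟩⟩ <;> linarith

theorem mem_part8 (x y s : ℝ) (hs : s = √2)
    (l0 : 0 ≤ x) (u0 : x ≤ 2 + 2 * s)
    (l1 : 2 + 2 * s ≤ x + y) (u1 : x + y ≤ 4 + 2 * s)
    (l2 : 0 ≤ y) (u2 : y ≤ 2 + 2 * s)
    (l3 : (-2) - 2 * s ≤ y - x) (u3 : y - x ≤ 2 + 2 * s) :
    (⟨x, y⟩ : ℂ) ∈ ⋃ i, piece i := by
  have e : pU 4 = ⟨![⟨0, 0⟩, ⟨2, 1⟩, ⟨0, 0⟩, ⟨-2, -1⟩], ![⟨2, 2⟩, ⟨2, 2⟩, ⟨2, 2⟩, ⟨2, 1⟩]⟩ :=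
    Box.ext_of (by decide +kernel) (by decide +kernel)
  refine mem_iUnion.2 ⟨4, Or.inl ?_⟩
  rw [e, Box.mem_iff, ← hs]
  simp only [Matrix.cons_val]
  push_cast
  refine ⟨⟨⟨?_, ?_⟩, ⟨?_, ?_⟩⟩, ⟨⟨?_, ?_⟩, ⟨?_, ?_⟩⟩⟩ <;> linarith

theorem mem_part9 (x y s : ℝ) (hs : s = √2)
    (l0 : 0 ≤ x) (u0 : x ≤ 4)
    (l1 : 2 * s ≤ x + y) (u1 : x + y ≤ 4 + 2 * s)
    (l2 : 2 * s ≤ y) (u2 : y ≤ 2 + 2 * s)
    (l3 : (-4) + 2 * s ≤ y - x) (u3 : y - x ≤ 2 + 2 * s) :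
    (⟨x, y⟩ : ℂ) ∈ ⋃ i, piece i := by
  have e : pW 4 = ⟨![⟨0, 0⟩, ⟨2, 0⟩, ⟨0, 2⟩, ⟨2, -2⟩], ![⟨4, 0⟩, ⟨2, 2⟩, ⟨2, 2⟩, ⟨2, 1⟩]⟩ :=
    Box.ext_of (by decide +kernel) (by decide +kernel)
  refine mem_iUnion.2 ⟨4, Or.inr ?_⟩
  rw [e, Box.mem_iff, ← hs]
  simp only [Matrix.cons_val]
  push_cast
  refine ⟨⟨⟨?_, ?_⟩, ⟨?_, ?_⟩⟩, ⟨⟨?_, ?_⟩, ⟨?_, ?_⟩⟩⟩ <;> linarith

theorem mem_part10 (x y s : ℝ) (hs : s = √2)
    (l0 : (-2) - 2 * s ≤ x) (u0 : x ≤ 2)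
    (l1 : (-4) - 2 * s ≤ x + y) (u1 : x + y ≤ 0)
    (l2 : (-2) - 1 * s ≤ y) (u2 : y ≤ (-2))
    (l3 : (-4) ≤ y - x) (u3 : y - x ≤ 2 * s) :
    (⟨x, y⟩ : ℂ) ∈ ⋃ i, piece i := by
  have e : pU 5 = ⟨![⟨-2, -2⟩, ⟨-2, -2⟩, ⟨-2, -1⟩, ⟨0, -2⟩], ![⟨2, 0⟩, ⟨0, 0⟩, ⟨-2, 0⟩, ⟨2, 0⟩]⟩ :=
    Box.ext_of (by decide +kernel) (by decide +kernel)
  refine mem_iUnion.2 ⟨5, Or.inl ?_⟩
  rw [e, Box.mem_iff, ← hs]
  simp only [Matrix.cons_val]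
  push_cast
  refine ⟨⟨⟨?_, ?_⟩, ⟨?_, ?_⟩⟩, ⟨⟨?_, ?_⟩, ⟨?_, ?_⟩⟩⟩ <;> linarith

theorem mem_part11 (x y s : ℝ) (hs : s = √2)
    (l0 : (-2) - 2 * s ≤ x) (u0 : x ≤ (-2) + 1 * s)
    (l1 : (-4) - 2 * s ≤ x + y) (u1 : x + y ≤ (-4))
    (l2 : (-2) - 1 * s ≤ y) (u2 : y ≤ (-2) + 1 * s)
    (l3 : (-2) * s ≤ y - x) (u3 : y - x ≤ 2 * s) :
    (⟨x, y⟩ : ℂ) ∈ ⋃ i, piece i := by
  have e : pW 5 = ⟨![⟨-2, -2⟩, ⟨-2, -2⟩, ⟨-2, -1⟩, ⟨-2, 0⟩], ![⟨-2, 1⟩, ⟨0, -2⟩, ⟨-2, 1⟩, ⟨2, 0⟩]⟩ :=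
    Box.ext_of (by decide +kernel) (by decide +kernel)
  refine mem_iUnion.2 ⟨5, Or.inr ?_⟩
  rw [e, Box.mem_iff, ← hs]
  simp only [Matrix.cons_val]
  push_cast
  refine ⟨⟨⟨?_, ?_⟩, ⟨?_, ?_⟩⟩, ⟨⟨?_, ?_⟩, ⟨?_, ?_⟩⟩⟩ <;> linarith

theorem mem_part12 (x y s : ℝ) (hs : s = √2)
    (l0 : (-2) - 2 * s ≤ x) (u0 : x ≤ 0)
    (l1 : (-4) - 2 * s ≤ x + y) (u1 : x + y ≤ 2 * s)
    (l2 : (-2) ≤ y) (u2 : y ≤ 2 * s)
    (l3 : 2 * s ≤ y - x) (u3 : y - x ≤ 2 + 2 * s) :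
    (⟨x, y⟩ : ℂ) ∈ ⋃ i, piece i := by
  have e : pU 6 = ⟨![⟨-2, -2⟩, ⟨-2, -2⟩, ⟨-2, 0⟩, ⟨2, 0⟩], ![⟨0, 0⟩, ⟨2, 0⟩, ⟨0, 2⟩, ⟨2, 1⟩]⟩ :=
    Box.ext_of (by decide +kernel) (by decide +kernel)
  refine mem_iUnion.2 ⟨6, Or.inl ?_⟩
  rw [e, Box.mem_iff, ← hs]
  simp only [Matrix.cons_val]
  push_cast
  refine ⟨⟨⟨?_, ?_⟩, ⟨?_, ?_⟩⟩, ⟨⟨?_, ?_⟩, ⟨?_, ?_⟩⟩⟩ <;> linarith

theorem mem_part13 (x y s : ℝ) (hs : s = √2)
    (l0 : (-4) ≤ x) (u0 : x ≤ 0)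
    (l1 : (-6) + 2 * s ≤ x + y) (u1 : x + y ≤ 2 * s)
    (l2 : (-2) + 2 * s ≤ y) (u2 : y ≤ 2 * s)
    (l3 : (-2) + 2 * s ≤ y - x) (u3 : y - x ≤ 2 + 2 * s) :
    (⟨x, y⟩ : ℂ) ∈ ⋃ i, piece i := by
  have e : pW 6 = ⟨![⟨-4, 0⟩, ⟨2, -3⟩, ⟨-2, 2⟩, ⟨2, -1⟩], ![⟨0, 0⟩, ⟨2, 0⟩, ⟨0, 2⟩, ⟨2, 1⟩]⟩ :=
    Box.ext_of (by decide +kernel) (by decide +kernel)
  refine mem_iUnion.2 ⟨6, Or.inr ?_⟩
  rw [e, Box.mem_iff, ← hs]
  simp only [Matrix.cons_val]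
  push_cast
  refine ⟨⟨⟨?_, ?_⟩, ⟨?_, ?_⟩⟩, ⟨⟨?_, ?_⟩, ⟨?_, ?_⟩⟩⟩ <;> linarith

theorem mem_part14 (x y s : ℝ) (hs : s = √2)
    (l0 : (-2) - 2 * s ≤ x) (u0 : x ≤ 0)
    (l1 : (-2) - 2 * s ≤ x + y) (u1 : x + y ≤ 2 + 2 * s)
    (l2 : 0 ≤ y) (u2 : y ≤ 2 + 2 * s)
    (l3 : 2 + 2 * s ≤ y - x) (u3 : y - x ≤ 4 + 2 * s) :
    (⟨x, y⟩ : ℂ) ∈ ⋃ i, piece i := by
  have e : pU 7 = ⟨![⟨-2, -2⟩, ⟨-2, -1⟩, ⟨0, 0⟩, ⟨2, 1⟩], ![⟨0, 0⟩, ⟨2, 1⟩, ⟨2, 2⟩, ⟨2, 2⟩]⟩ :=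
    Box.ext_of (by decide +kernel) (by decide +kernel)
  refine mem_iUnion.2 ⟨7, Or.inl ?_⟩
  rw [e, Box.mem_iff, ← hs]
  simp only [Matrix.cons_val]
  push_cast
  refine ⟨⟨⟨?_, ?_⟩, ⟨?_, ?_⟩⟩, ⟨⟨?_, ?_⟩, ⟨?_, ?_⟩⟩⟩ <;> linarith

theorem mem_part15 (x y s : ℝ) (hs : s = √2)
    (l0 : (-4) ≤ x) (u0 : x ≤ 0)
    (l1 : (-4) + 2 * s ≤ x + y) (u1 : x + y ≤ 2 + 2 * s)
    (l2 : 2 * s ≤ y) (u2 : y ≤ 2 + 2 * s)
    (l3 : 2 * s ≤ y - x) (u3 : y - x ≤ 4 + 2 * s) :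
    (⟨x, y⟩ : ℂ) ∈ ⋃ i, piece i := by
  have e : pW 7 = ⟨![⟨-4, 0⟩, ⟨2, -2⟩, ⟨0, 2⟩, ⟨2, 0⟩], ![⟨0, 0⟩, ⟨2, 1⟩, ⟨2, 2⟩, ⟨2, 2⟩]⟩ :=
    Box.ext_of (by decide +kernel) (by decide +kernel)
  refine mem_iUnion.2 ⟨7, Or.inr ?_⟩
  rw [e, Box.mem_iff, ← hs]
  simp only [Matrix.cons_val]
  push_cast
  refine ⟨⟨⟨?_, ?_⟩, ⟨?_, ?_⟩⟩, ⟨⟨?_, ?_⟩, ⟨?_, ?_⟩⟩⟩ <;> linarith

theorem cover_aux (x y s : ℝ) (hs : s = √2) (s1 : 1.414 < s) (s2 : s < 1.415)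
    (l0 : -2 - 2 * s ≤ x) (u0 : x ≤ 2 + 2 * s) (l1 : -4 - 2 * s ≤ x + y) (u1 : x + y ≤ 4 + 2 * s)
    (l2 : -2 - 2 * s ≤ y) (u2 : y ≤ 2 + 2 * s) (l3 : -4 - 2 * s ≤ y - x) (u3 : y - x ≤ 4 + 2 * s) :
    (⟨x, y⟩ : ℂ) ∈ ⋃ i, piece i := by
  rcases le_total (x + y) (2 + 2 * s) with h | h
  · rcases le_total (y) ((-2) - 1 * s) with h | h
    · exact mem_part2 x y s hs (by linarith) (by linarith) (by linarith) (by linarith) (by linarith) (by linarith) (by linarith) (by linarith)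
    · rcases le_total (y - x) (2 + 2 * s) with h | h
      · rcases le_total (y) (2 * s) with h | h
        · rcases le_total (x + y) (2 * s) with h | h
          · rcases le_total (y - x) (2 * s) with h | h
            · rcases le_total (y) ((-2) + 2 * s) with h | h
              · rcases le_total (x + y) ((-4)) with h | h
                · exact mem_part11 x y s hs (by linarith) (by linarith) (by linarith) (by linarith) (by linarith) (by linarith) (by linarith) (by linarith)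
                · rcases le_total (y) ((-2) + 1 * s) with h | h
                  · rcases le_total (x + y) (0) with h | h
                    · rcases le_total (y) ((-2)) with h | h
                      · rcases le_total (y - x) ((-4)) with h | h
                        · exact mem_part3 x y s hs (by linarith) (by linarith) (by linarith) (by linarith) (by linarith) (by linarith) (by linarith) (by linarith)
                        · exact mem_part10 x y s hs (by linarith) (by linarith) (by linarith) (by linarith) (by linarith) (by linarith) (by linarith) (by linarith)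
                      · rcases le_total (y - x) (0) with h | h
                        · exact mem_part4 x y s hs (by linarith) (by linarith) (by linarith) (by linarith) (by linarith) (by linarith) (by linarith) (by linarith)
                        · exact mem_part1 x y s hs (by linarith) (by linarith) (by linarith) (by linarith) (by linarith) (by linarith) (by linarith) (by linarith)
                    · exact mem_part5 x y s hs (by linarith) (by linarith) (by linarith) (by linarith) (by linarith) (by linarith) (by linarith) (by linarith)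
                  · exact mem_part0 x y s hs (by linarith) (by linarith) (by linarith) (by linarith) (by linarith) (by linarith) (by linarith) (by linarith)
              · rcases le_total (x) (0) with h | h
                · exact mem_part13 x y s hs (by linarith) (by linarith) (by linarith) (by linarith) (by linarith) (by linarith) (by linarith) (by linarith)
                · exact mem_part7 x y s hs (by linarith) (by linarith) (by linarith) (by linarith) (by linarith) (by linarith) (by linarith) (by linarith)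
            · exact mem_part12 x y s hs (by linarith) (by linarith) (by linarith) (by linarith) (by linarith) (by linarith) (by linarith) (by linarith)
          · exact mem_part6 x y s hs (by linarith) (by linarith) (by linarith) (by linarith) (by linarith) (by linarith) (by linarith) (by linarith)
        · rcases le_total (x) (0) with h | h
          · exact mem_part15 x y s hs (by linarith) (by linarith) (by linarith) (by linarith) (by linarith) (by linarith) (by linarith) (by linarith)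
          · exact mem_part9 x y s hs (by linarith) (by linarith) (by linarith) (by linarith) (by linarith) (by linarith) (by linarith) (by linarith)
      · exact mem_part14 x y s hs (by linarith) (by linarith) (by linarith) (by linarith) (by linarith) (by linarith) (by linarith) (by linarith)
  · exact mem_part8 x y s hs (by linarith) (by linarith) (by linarith) (by linarith) (by linarith) (by linarith) (by linarith) (by linarith)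

end Pool.Agent.helper56.Oct
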