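import Pool.Agent.helper56.Oct.Pieces

/-!
Topology of the prototile, and the dissection of the octagon of side `4`.
-/

set_option autoImplicit false

namespace Pool.Agent.helper56.Oct

open Set

theorem s_lo : (1.414 : ℝ) < √2 := by
  apply Real.lt_sqrt_of_sq_lt; norm_num

theorem s_hi : √2 < (1.415 : ℝ) := by
  rw [Real.sqrt_lt' (by norm_num)]; norm_num

theorem mem_boxU (z : ℂ) : z ∈ boxU.set ↔ ((-√2 ≤ z.re ∧ z.re ≤ 4 + √2) ∧
    (0 ≤ z.re + z.im ∧ z.re + z.im ≤ 4 + 2 * √2)) ∧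
    ((0 ≤ z.im ∧ z.im ≤ √2) ∧ (-4 ≤ z.im - z.re ∧ z.im - z.re ≤ 2 * √2)) := by
  rw [Box.mem_iff]
  simp only [boxU, Matrix.cons_val]
  push_cast
  constructor
  · rintro ⟨⟨⟨h1, h2⟩, ⟨h3, h4⟩⟩, ⟨⟨h5, h6⟩, ⟨h7, h8⟩⟩⟩
    refine ⟨⟨⟨?_, ?_⟩, ⟨?_, ?_⟩⟩, ⟨⟨?_, ?_⟩, ⟨?_, ?_⟩⟩⟩ <;> linarith
  · rintro ⟨⟨⟨h1, h2⟩, ⟨h3, h4⟩⟩, ⟨⟨h5, h6⟩, ⟨h7, h8⟩⟩⟩
    refine ⟨⟨⟨?_, ?_⟩, ⟨?_, ?_⟩⟩, ⟨⟨?_, ?_⟩, ⟨?_, ?_⟩⟩⟩ <;> linarith

theorem mem_boxW (z : ℂ) : z ∈ boxW.set ↔ ((4 - 2 * √2 ≤ z.re ∧ z.re ≤ 4 + √2) ∧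
    (4 - 2 * √2 ≤ z.re + z.im ∧ z.re + z.im ≤ 4 + 2 * √2)) ∧
    ((0 ≤ z.im ∧ z.im ≤ 2 * √2) ∧ (-4 ≤ z.im - z.re ∧ z.im - z.re ≤ 2 * √2 - 4)) := by
  rw [Box.mem_iff]
  simp only [boxW, Matrix.cons_val]
  push_cast
  constructor
  · rintro ⟨⟨⟨h1, h2⟩, ⟨h3, h4⟩⟩, ⟨⟨h5, h6⟩, ⟨h7, h8⟩⟩⟩
    refine ⟨⟨⟨?_, ?_⟩, ⟨?_, ?_⟩⟩, ⟨⟨?_, ?_⟩, ⟨?_, ?_⟩⟩⟩ <;> linarith
  · rintro ⟨⟨⟨h1, h2⟩, ⟨h3, h4⟩⟩, ⟨⟨h5, h6⟩, ⟨h7, h8⟩⟩⟩
    refine ⟨⟨⟨?_, ?_⟩, ⟨?_, ?_⟩⟩, ⟨⟨?_, ?_⟩, ⟨?_, ?_⟩⟩⟩ <;> linarith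

theorem tile_eq : tile = {z | 0 ≤ z.re + z.im ∧ 0 ≤ z.im ∧ z.re + z.im ≤ 4 + 2 * √2 ∧
    -4 ≤ z.im - z.re ∧ (z.im ≤ √2 ∨ z.im - z.re ≤ 2 * √2 - 4)} := by
  have s1 := s_lo
  have s2 := s_hi
  ext z
  rw [tile, mem_union, mem_boxU, mem_boxW]
  simp only [mem_ofPred_eq]
  constructor
  · rintro (⟨⟨⟨h1, h2⟩, ⟨h3, h4⟩⟩, ⟨⟨h5, h6⟩, ⟨h7, h8⟩⟩⟩ |
      ⟨⟨⟨h1, h2⟩, ⟨h3, h4⟩⟩, ⟨⟨h5, h6⟩, ⟨h7, h8⟩⟩⟩)
    · exact ⟨by linarith, by linarith, by linarith, by linarith, Or.inl (by linarith)⟩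
    · exact ⟨by linarith, by linarith, by linarith, by linarith, Or.inr (by linarith)⟩
  · rintro ⟨a1, a2, a3, a4, a5 | a5⟩
    · left; refine ⟨⟨⟨?_, ?_⟩, ⟨?_, ?_⟩⟩, ⟨⟨?_, ?_⟩, ⟨?_, ?_⟩⟩⟩ <;> linarith
    · right; refine ⟨⟨⟨?_, ?_⟩, ⟨?_, ?_⟩⟩, ⟨⟨?_, ?_⟩, ⟨?_, ?_⟩⟩⟩ <;> linarith

theorem tile_closed : IsClosed tile := boxU.isClosed.union boxW.isClosed
theorem tile_compact : IsCompact tile := boxU.isCompact.union boxW.isCompact

/-- a point interior to both convex parts -/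
noncomputable def mid : ℂ := ⟨4, 1 / 2⟩

theorem mid_mem_U : mid ∈ interior boxU.set := by
  have s1 := s_lo
  have s2 := s_hi
  have hq := Q2.s2_sq
  apply Box.mem_interior
  intro j
  fin_cases j
  · show (⟨0, -1⟩ : Q2).val < U 0 mid ∧ U 0 mid < (⟨4, 1⟩ : Q2).val
    rw [U0]; simp only [Q2.val, mid]; push_cast; constructor <;> linarith
  · show (⟨0, 0⟩ : Q2).val < U 1 mid ∧ U 1 mid < (⟨2, 2⟩ : Q2).val
    rw [U1]; simp only [Q2.val, mid]; push_cast; constructor <;> nlinarith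
  · show (⟨0, 0⟩ : Q2).val < U 2 mid ∧ U 2 mid < (⟨0, 1⟩ : Q2).val
    rw [U2]; simp only [Q2.val, mid]; push_cast; constructor <;> linarith
  · show (⟨0, -2⟩ : Q2).val < U 3 mid ∧ U 3 mid < (⟨2, 0⟩ : Q2).val
    rw [U3]; simp only [Q2.val, mid]; push_cast; constructor <;> nlinarith

theorem mid_mem_W : mid ∈ interior boxW.set := by
  have s1 := s_lo
  have s2 := s_hi
  have hq := Q2.s2_sq
  apply Box.mem_interior
  intro j
  fin_cases j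
  · show (⟨4, -2⟩ : Q2).val < U 0 mid ∧ U 0 mid < (⟨4, 1⟩ : Q2).val
    rw [U0]; simp only [Q2.val, mid]; push_cast; constructor <;> linarith
  · show (⟨-2, 2⟩ : Q2).val < U 1 mid ∧ U 1 mid < (⟨2, 2⟩ : Q2).val
    rw [U1]; simp only [Q2.val, mid]; push_cast; constructor <;> nlinarith
  · show (⟨0, 0⟩ : Q2).val < U 2 mid ∧ U 2 mid < (⟨0, 2⟩ : Q2).val
    rw [U2]; simp only [Q2.val, mid]; push_cast; constructor <;> linarith
  · show (⟨0, -2⟩ : Q2).val < U 3 mid ∧ U 3 mid < (⟨2, -2⟩ : Q2).val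
    rw [U3]; simp only [Q2.val, mid]; push_cast; constructor <;> nlinarith

theorem closure_interior_tile : closure (interior tile) = tile := by
  apply Subset.antisymm
  · exact (closure_mono interior_subset).trans tile_closed.closure_eq.subset
  · apply union_subset
    · conv_lhs => rw [← boxU.closure_interior ⟨_, mid_mem_U⟩]
      exact closure_mono (interior_mono subset_union_left)
    · conv_lhs => rw [← boxW.closure_interior ⟨_, mid_mem_W⟩]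
      exact closure_mono (interior_mono subset_union_right)

theorem interior_tile : interior tile =
    {z | 0 < z.re + z.im ∧ 0 < z.im ∧ z.re + z.im < 4 + 2 * √2 ∧
      -4 < z.im - z.re ∧ (z.im < √2 ∨ z.im - z.re < 2 * √2 - 4)} := by
  apply Subset.antisymm
  · intro z hz
    have hz' := interior_subset hz
    rw [tile_eq] at hz'
    obtain ⟨a1, a2, a3, a4, a5⟩ := hz'
    have key : ∀ a b : ℝ, ∃ δ : ℝ, 0 < δ ∧ 0 ≤ (z.re + δ * a) + (z.im + δ * b) ∧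
        0 ≤ z.im + δ * b ∧ (z.re + δ * a) + (z.im + δ * b) ≤ 4 + 2 * √2 ∧
        -4 ≤ (z.im + δ * b) - (z.re + δ * a) ∧
        (z.im + δ * b ≤ √2 ∨ (z.im + δ * b) - (z.re + δ * a) ≤ 2 * √2 - 4) := by
      intro a b
      obtain ⟨δ, hδ, hm⟩ := exists_pos_of_interior hz ⟨a, b⟩
      rw [tile_eq] at hm
      refine ⟨δ, hδ, ?_⟩
      simpa using hm
    refine ⟨?_, ?_, ?_, ?_, ?_⟩
    · obtain ⟨δ, hδ, h1, -⟩ := key (-1) 0
      linarith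
    · obtain ⟨δ, hδ, -, h1, -⟩ := key 0 (-1)
      linarith
    · obtain ⟨δ, hδ, -, -, h1, -⟩ := key 1 0
      linarith
    · obtain ⟨δ, hδ, -, -, -, h1, -⟩ := key 1 0
      linarith
    · by_contra hcon
      push Not at hcon
      obtain ⟨δ, hδ, -, -, -, -, h1⟩ := key 0 1
      rcases h1 with h1 | h1 <;> linarith
  · intro z hz
    rw [_root_.mem_interior]
    refine ⟨{z | 0 < z.re + z.im} ∩ {z | 0 < z.im} ∩ {z | z.re + z.im < 4 + 2 * √2} ∩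
      {z | -4 < z.im - z.re} ∩ ({z | z.im < √2} ∪ {z | z.im - z.re < 2 * √2 - 4}), ?_, ?_, ?_⟩
    · rintro w ⟨⟨⟨⟨h1, h2⟩, h3⟩, h4⟩, h5⟩
      rw [tile_eq]
      refine ⟨le_of_lt h1, le_of_lt h2, le_of_lt h3, le_of_lt h4, ?_⟩
      rcases h5 with h5 | h5
      · exact Or.inl (le_of_lt h5)
      · exact Or.inr (le_of_lt h5)
    · have c1 := Complex.continuous_re
      have c2 := Complex.continuous_im
      exact ((((isOpen_lt continuous_const (c1.add c2)).inter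
        (isOpen_lt continuous_const c2)).inter
        (isOpen_lt (c1.add c2) continuous_const)).inter
        (isOpen_lt continuous_const (c2.sub c1))).inter
        ((isOpen_lt c2 continuous_const).union (isOpen_lt (c2.sub c1) continuous_const))
    · obtain ⟨h1, h2, h3, h4, h5⟩ := hz
      exact ⟨⟨⟨⟨h1, h2⟩, h3⟩, h4⟩, h5⟩

theorem frontier_tile : frontier tile =
    {z | (0 ≤ z.re + z.im ∧ 0 ≤ z.im ∧ z.re + z.im ≤ 4 + 2 * √2 ∧
      -4 ≤ z.im - z.re ∧ (z.im ≤ √2 ∨ z.im - z.re ≤ 2 * √2 - 4)) ∧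
      (z.re + z.im = 0 ∨ z.im = 0 ∨ z.re + z.im = 4 + 2 * √2 ∨ z.im - z.re = -4 ∨
        (√2 ≤ z.im ∧ 2 * √2 - 4 ≤ z.im - z.re))} := by
  rw [tile_closed.frontier_eq, interior_tile]
  ext z
  rw [mem_sdiff, tile_eq]
  simp only [mem_ofPred_eq]
  constructor
  · rintro ⟨⟨a1, a2, a3, a4, a5⟩, h⟩
    refine ⟨⟨a1, a2, a3, a4, a5⟩, ?_⟩
    by_contra hcon
    push Not at hcon
    obtain ⟨b1, b2, b3, b4, b5⟩ := hcon
    apply h
    refine ⟨lt_of_le_of_ne a1 (Ne.symm b1), lt_of_le_of_ne a2 (Ne.symm b2),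
      lt_of_le_of_ne a3 b3, lt_of_le_of_ne a4 (Ne.symm b4), ?_⟩
    by_cases hy : √2 ≤ z.im
    · exact Or.inr (b5 hy)
    · exact Or.inl (not_le.1 hy)
  · rintro ⟨a, h⟩
    refine ⟨a, ?_⟩
    rintro ⟨b1, b2, b3, b4, b5⟩
    rcases h with h | h | h | h | ⟨h, h'⟩
    · linarith
    · linarith
    · linarith
    · linarith
    · rcases b5 with b5 | b5 <;> linarith

/-- the six vertices of the prototile -/
noncomputable def vp : Fin 6 → ℝ × ℝ :=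
  ![(0, 0), (4, 0), (4 + √2, √2), (4, 2 * √2), (4 - √2, √2), (-√2, √2)]

/-- the six side vectors -/
noncomputable def vd : Fin 6 → ℝ × ℝ :=
  ![(4, 0), (√2, √2), (-√2, √2), (-√2, -√2), (-4, 0), (√2, -√2)]

/-- the six sides -/
noncomputable def side (k : Fin 6) (t : ℝ) : ℂ :=
  ⟨(vp k).1 + t * (vd k).1, (vp k).2 + t * (vd k).2⟩

theorem side_eq (k : Fin 6) (t : ℝ) :
    side k t = (⟨(vp k).1, (vp k).2⟩ : ℂ) + t • (⟨(vd k).1, (vd k).2⟩ : ℂ) := by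
  apply Complex.ext <;> simp [side]

theorem side_inj (k : Fin 6) : Function.Injective (side k) := by
  have hs := Q2.s2_pos
  intro s t h
  have hx := congrArg Complex.re h
  have hy := congrArg Complex.im h
  simp only [side] at hx hy
  have aux : ∀ a b : ℝ, a ≠ 0 → b + s * a = b + t * a → s = t := by
    intro a b ha h1
    have h3 : s * a = t * a := by linarith
    exact mul_right_cancel₀ ha h3
  fin_cases k
  · exact aux 4 0 (by norm_num) hx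
  · exact aux (√2) 4 hs.ne' hx
  · exact aux (√2) (√2) hs.ne' hy
  · exact aux (-√2) 4 (neg_ne_zero.2 hs.ne') hx
  · exact aux (-4) (4 - √2) (by norm_num) hx
  · exact aux (√2) (-√2) hs.ne' hx

theorem side_continuous (k : Fin 6) : Continuous (side k) := by
  have : side k = fun t => (⟨(vp k).1, (vp k).2⟩ : ℂ) + t • (⟨(vd k).1, (vd k).2⟩ : ℂ) :=
    funext (side_eq k)
  rw [this]
  fun_prop

theorem side_bv (k : Fin 6) : BoundedVariationOn (side k) (Icc 0 1) := by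
  have hL : LipschitzWith ‖(⟨(vd k).1, (vd k).2⟩ : ℂ)‖₊ (side k) := by
    apply LipschitzWith.of_dist_le_mul
    intro s t
    rw [side_eq, side_eq, dist_add_left, dist_eq_norm, ← sub_smul, norm_smul, coe_nnnorm,
      Real.dist_eq, Real.norm_eq_abs, mul_comm]
  have h := hL.lipschitzOnWith (s := (univ : Set ℝ))
  have h2 := h.locallyBoundedVariationOn 0 1 (mem_univ _) (mem_univ _)
  rwa [univ_inter] at h2

theorem frontier_tile_sides : frontier tile = ⋃ k, side k '' Icc 0 1 := by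
  have s1 := s_lo
  have s2 := s_hi
  have hs := Q2.s2_pos
  have hn := hs.ne'
  rw [frontier_tile]
  ext z
  simp only [mem_ofPred_eq, mem_iUnion, mem_image, mem_Icc]
  constructor
  · rintro ⟨⟨a1, a2, a3, a4, a5⟩, h⟩
    have mk : ∀ (k : Fin 6) (t x y dx dy : ℝ), vp k = (x, y) → vd k = (dx, dy) →
        0 ≤ t → t ≤ 1 → x + t * dx = z.re → y + t * dy = z.im →
        ∃ k : Fin 6, ∃ t, (0 ≤ t ∧ t ≤ 1) ∧ side k t = z := by
      intro k t x y dx dy e1 e2 h0 h1 hx hy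
      refine ⟨k, t, ⟨h0, h1⟩, ?_⟩
      rw [side, e1, e2, hx, hy]
    rcases h with h | h | h | h | ⟨h, h'⟩
    · -- side 5
      have hy : z.im ≤ √2 := by
        rcases a5 with a5 | a5
        · exact a5
        · linarith
      have e : (√2 - z.im) / √2 * √2 = √2 - z.im := by field_simp
      refine mk 5 ((√2 - z.im) / √2) (-√2) (√2) (√2) (-√2) rfl rfl
        (div_nonneg (by linarith) hs.le) ((div_le_one hs).2 (by linarith)) ?_ ?_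
      · rw [e]; linarith
      · rw [mul_neg, e]; ring
    · -- side 0
      exact mk 0 (z.re / 4) 0 0 4 0 rfl rfl (by linarith) (by linarith)
        (by ring) (by linarith)
    · -- side 2
      have e : (z.im - √2) / √2 * √2 = z.im - √2 := by field_simp
      have hy : z.im ≤ 2 * √2 := by
        rcases a5 with a5 | a5 <;> linarith
      refine mk 2 ((z.im - √2) / √2) (4 + √2) (√2) (-√2) (√2) rfl rfl
        (div_nonneg (by linarith) hs.le) ((div_le_one hs).2 (by linarith)) ?_ ?_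
      · rw [mul_neg, e]; linarith
      · rw [e]; ring
    · -- side 1
      have e : z.im / √2 * √2 = z.im := by field_simp
      refine mk 1 (z.im / √2) 4 0 (√2) (√2) rfl rfl
        (div_nonneg (by linarith) hs.le) ((div_le_one hs).2 (by linarith)) ?_ ?_
      · rw [e]; linarith
      · rw [e]; ring
    · rcases a5 with a5 | a5
      · -- side 4
        exact mk 4 ((4 - √2 - z.re) / 4) (4 - √2) (√2) (-4) 0 rfl rfl (by linarith)
          (by linarith) (by ring) (by linarith)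
      · -- side 3
        have e : (2 * √2 - z.im) / √2 * √2 = 2 * √2 - z.im := by field_simp
        refine mk 3 ((2 * √2 - z.im) / √2) 4 (2 * √2) (-√2) (-√2) rfl rfl
          (div_nonneg (by linarith) hs.le) ((div_le_one hs).2 (by linarith)) ?_ ?_
        · rw [mul_neg, e]; linarith
        · rw [mul_neg, e]; ring
  · rintro ⟨k, t, ⟨h0, h1⟩, rfl⟩
    have p0 : 0 ≤ t * √2 := mul_nonneg h0 hs.le
    have p1 : t * √2 ≤ √2 := by nlinarith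
    have e : ∀ (x y dx dy : ℝ), vp k = (x, y) → vd k = (dx, dy) →
        side k t = ⟨x + t * dx, y + t * dy⟩ := by
      intro x y dx dy e1 e2
      rw [side, e1, e2]
    fin_cases k
    · rw [e 0 0 4 0 rfl rfl]
      refine ⟨⟨?_, ?_, ?_, ?_, Or.inl ?_⟩, Or.inr (Or.inl ?_)⟩ <;> linarith
    · rw [e 4 0 (√2) (√2) rfl rfl]
      refine ⟨⟨?_, ?_, ?_, ?_, Or.inl ?_⟩, Or.inr (Or.inr (Or.inr (Or.inl ?_)))⟩ <;> linarith
    · rw [e (4 + √2) (√2) (-√2) (√2) rfl rfl]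
      refine ⟨⟨?_, ?_, ?_, ?_, Or.inr ?_⟩, Or.inr (Or.inr (Or.inl ?_))⟩ <;> linarith
    · rw [e 4 (2 * √2) (-√2) (-√2) rfl rfl]
      refine ⟨⟨?_, ?_, ?_, ?_, Or.inr ?_⟩, Or.inr (Or.inr (Or.inr (Or.inr ⟨?_, ?_⟩)))⟩ <;>
        linarith
    · rw [e (4 - √2) (√2) (-4) 0 rfl rfl]
      refine ⟨⟨?_, ?_, ?_, ?_, Or.inl ?_⟩, Or.inr (Or.inr (Or.inr (Or.inr ⟨?_, ?_⟩)))⟩ <;>
        linarith
    · rw [e (-√2) (√2) (√2) (-√2) rfl rfl]
      refine ⟨⟨?_, ?_, ?_, ?_, Or.inl ?_⟩, Or.inl ?_⟩ <;> linarith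

theorem piece_sub (i : Fin 8) : piece i ⊆ boxO.set :=
  union_subset (Box.sub_set (sub_check i).1) (Box.sub_set (sub_check i).2)

theorem mem_boxO (z : ℂ) : z ∈ boxO.set ↔ ((-2 - 2 * √2 ≤ z.re ∧ z.re ≤ 2 + 2 * √2) ∧
    (-4 - 2 * √2 ≤ z.re + z.im ∧ z.re + z.im ≤ 4 + 2 * √2)) ∧
    ((-2 - 2 * √2 ≤ z.im ∧ z.im ≤ 2 + 2 * √2) ∧
      (-4 - 2 * √2 ≤ z.im - z.re ∧ z.im - z.re ≤ 4 + 2 * √2)) := by
  rw [Box.mem_iff]
  simp only [boxO, Matrix.cons_val]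
  push_cast
  constructor
  · rintro ⟨⟨⟨h1, h2⟩, ⟨h3, h4⟩⟩, ⟨⟨h5, h6⟩, ⟨h7, h8⟩⟩⟩
    refine ⟨⟨⟨?_, ?_⟩, ⟨?_, ?_⟩⟩, ⟨⟨?_, ?_⟩, ⟨?_, ?_⟩⟩⟩ <;> linarith
  · rintro ⟨⟨⟨h1, h2⟩, ⟨h3, h4⟩⟩, ⟨⟨h5, h6⟩, ⟨h7, h8⟩⟩⟩
    refine ⟨⟨⟨?_, ?_⟩, ⟨?_, ?_⟩⟩, ⟨⟨?_, ?_⟩, ⟨?_, ?_⟩⟩⟩ <;> linarith

theorem cover : ⋃ i, piece i = boxO.set := by
  apply Subset.antisymm
  · exact iUnion_subset piece_sub
  · intro z hz
    rw [mem_boxO] at hz
    obtain ⟨⟨⟨h1, h2⟩, ⟨h3, h4⟩⟩, ⟨⟨h5, h6⟩, ⟨h7, h8⟩⟩⟩ := hz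
    exact cover_aux z.re z.im (√2) rfl s_lo s_hi h1 h2 h3 h4 h5 h6 h7 h8

theorem interior_union_empty {A B : Set ℂ} (hA : IsClosed A) (h1 : interior A = ∅)
    (h2 : interior B = ∅) : interior (A ∪ B) = ∅ := by
  rw [interior_union_isClosed_of_interior_empty hA h2, h1]

theorem disj (i j : Fin 8) (hij : i ≠ j) :
    Disjoint (interior (piece i)) (interior (piece j)) := by
  rw [Set.disjoint_iff_inter_eq_empty, ← interior_inter]
  obtain ⟨c1, c2, c3⟩ := sep_check i j hij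
  obtain ⟨d1, d2, d3⟩ := sep_check j i hij.symm
  have e : piece i ∩ piece j = (((pU i).set ∩ (pU j).set) ∪ ((pU i).set ∩ (pW j).set)) ∪
      (((pW i).set ∩ (pU j).set) ∪ ((pW i).set ∩ (pW j).set)) := by
    rw [piece, piece, union_inter_distrib_right, inter_union_distrib_left,
      inter_union_distrib_left]
  have hcl : ∀ B C : Box, IsClosed (B.set ∩ C.set) := fun B C => B.isClosed.inter C.isClosed
  rw [e]
  apply interior_union_empty ((hcl _ _).union (hcl _ _))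
  · exact interior_union_empty (hcl _ _) (interior_inter_of_sep c1) (interior_inter_of_sep c2)
  · apply interior_union_empty (hcl _ _) _ (interior_inter_of_sep c3)
    rw [inter_comm]
    exact interior_inter_of_sep d2

/-- the origin is an interior point of the first piece -/
theorem zero_mem : (0 : ℂ) ∈ interior (piece 0) := by
  have s1 := s_lo
  have s2 := s_hi
  have h : (0 : ℂ) ∈ interior (pU 0).set := by
    have e : pU 0 = ⟨![⟨-2, -1⟩, ⟨0, -2⟩, ⟨-2, 1⟩, ⟨0, -2⟩], ![⟨2, 1⟩, ⟨2, 0⟩, ⟨-2, 2⟩, ⟨2, 0⟩]⟩ :=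
      Box.ext_of (by decide +kernel) (by decide +kernel)
    rw [e]
    apply Box.mem_interior
    intro j
    rw [map_zero]
    fin_cases j
    · show (⟨-2, -1⟩ : Q2).val < 0 ∧ 0 < (⟨2, 1⟩ : Q2).val
      simp only [Q2.val]; push_cast; constructor <;> linarith
    · show (⟨0, -2⟩ : Q2).val < 0 ∧ 0 < (⟨2, 0⟩ : Q2).val
      simp only [Q2.val]; push_cast; constructor <;> linarith
    · show (⟨-2, 1⟩ : Q2).val < 0 ∧ 0 < (⟨-2, 2⟩ : Q2).val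
      simp only [Q2.val]; push_cast; constructor <;> linarith
    · show (⟨0, -2⟩ : Q2).val < 0 ∧ 0 < (⟨2, 0⟩ : Q2).val
      simp only [Q2.val]; push_cast; constructor <;> linarith
  exact interior_mono subset_union_left h

end Pool.Agent.helper56.Oct
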